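import Mathlib

/-!
Isotropy of diagonal quadratic forms over a field.
-/

set_option autoImplicit false

namespace Pool.Agent.Lib.HasseMinkowski

/-- the diagonal form with coefficients `c` has a nontrivial zero -/
def Iso {K ι : Type*} [Field K] [Fintype ι] (c : ι → K) : Prop :=
  ∃ w : ι → K, w ≠ 0 ∧ ∑ i, c i * w i ^ 2 = 0

variable {K : Type*} [Field K] {ι κ : Type*} [Fintype ι] [Fintype κ]

lemma Iso.scale {c c' : ι → K} (h : Iso c) (k : K) (s : ι → K) (hs : ∀ i, s i ≠ 0)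
    (e : ∀ i, c' i = k * s i ^ 2 * c i) : Iso c' := by
  obtain ⟨w, hw, h0⟩ := h
  refine ⟨fun i => w i / s i, fun h1 => hw (funext fun i => ?_), ?_⟩
  · have h2 : w i / s i = 0 := congrFun h1 i
    exact (div_eq_zero_iff.1 h2).resolve_right (hs i)
  · have : ∀ i, c' i * (w i / s i) ^ 2 = k * (c i * w i ^ 2) := by
      intro i
      have := hs i
      rw [e i]
      field_simp
    simp only [this]
    rw [← Finset.mul_sum, h0, mul_zero]

lemma Iso.of_isSquare {c c' : ι → K} (h : Iso c) (hc : ∀ i, c i ≠ 0) (hc' : ∀ i, c' i ≠ 0)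
    (e : ∀ i, IsSquare (c' i / c i)) : Iso c' := by
  choose s hs using e
  refine h.scale 1 s (fun i h0 => ?_) fun i => ?_
  · have h1 := hs i
    rw [h0, mul_zero] at h1
    exact div_ne_zero (hc' i) (hc i) h1
  · have h1 := hs i
    rw [div_eq_iff (hc i)] at h1
    rw [h1]
    ring

lemma Iso.map {L : Type*} [Field L] (f : K →+* L) {c : ι → K} (h : Iso c) :
    Iso (fun i => f (c i)) := by
  obtain ⟨w, hw, h0⟩ := h
  refine ⟨fun i => f (w i), fun h1 => hw (funext fun i => ?_), ?_⟩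
  · have h2 : f (w i) = 0 := congrFun h1 i
    exact (map_eq_zero f).1 h2
  · have := congrArg f h0
    simpa [map_sum] using this

lemma Iso.of_comp {c : ι → K} (e : κ → ι) (he : Function.Injective e)
    (h : Iso (fun j => c (e j))) : Iso c := by
  classical
  obtain ⟨w, hw, h0⟩ := h
  refine ⟨Function.extend e w 0, fun h1 => hw (funext fun j => ?_), ?_⟩
  · have h2 := congrFun h1 (e j)
    rwa [he.extend_apply] at h2
  · rw [← h0]
    symm
    refine Finset.sum_bij_ne_zero (fun j _ _ => e j) (fun _ _ _ => Finset.mem_univ _)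
      (fun _ _ _ _ _ _ h => he h) (fun i _ h2 => ?_) (fun j _ _ => by rw [he.extend_apply])
    by_cases h3 : ∃ j, e j = i
    · obtain ⟨j, rfl⟩ := h3
      rw [he.extend_apply] at h2
      exact ⟨j, Finset.mem_univ _, h2, rfl⟩
    · rw [Function.extend_apply' _ _ _ h3] at h2
      simp at h2

lemma Iso.comp_equiv {c : ι → K} (e : κ ≃ ι) (h : Iso c) : Iso (fun j => c (e j)) := by
  refine Iso.of_comp e.symm e.symm.injective ?_
  simpa using h

lemma iso_cons_iff {n : ℕ} (a : K) (g : Fin n → K) : Iso (Matrix.vecCons a g) ↔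
    ∃ (x : K) (w : Fin n → K), (x ≠ 0 ∨ w ≠ 0) ∧ a * x ^ 2 + ∑ i, g i * w i ^ 2 = 0 := by
  constructor
  · rintro ⟨w, hw, h0⟩
    refine ⟨w 0, fun i => w i.succ, ?_, by simpa [Fin.sum_univ_succ] using h0⟩
    by_contra hc
    push Not at hc
    apply hw
    funext i
    refine Fin.cases hc.1 (fun j => congrFun hc.2 j) i
  · rintro ⟨x, w, hw, h0⟩
    refine ⟨Matrix.vecCons x w, fun h1 => ?_, by simpa [Fin.sum_univ_succ] using h0⟩
    rcases hw with h | h
    · exact h (congrFun h1 0)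
    · exact h (funext fun j => congrFun h1 j.succ)

lemma iso_two_iff (a b : K) : Iso ![a, b] ↔
    ∃ x y : K, (x ≠ 0 ∨ y ≠ 0) ∧ a * x ^ 2 + b * y ^ 2 = 0 := by
  constructor
  · rintro ⟨w, hw, h0⟩
    refine ⟨w 0, w 1, ?_, by simpa [Fin.sum_univ_succ] using h0⟩
    by_contra hc
    push Not at hc
    apply hw
    funext i
    fin_cases i
    · exact hc.1
    · exact hc.2
  · rintro ⟨x, y, hw, h0⟩
    refine ⟨![x, y], fun h1 => ?_, by simpa [Fin.sum_univ_succ] using h0⟩
    rcases hw with h | h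
    · exact h (congrFun h1 0)
    · exact h (congrFun h1 1)

lemma iso_three_iff (a b c : K) : Iso ![a, b, c] ↔
    ∃ x y z : K, (x ≠ 0 ∨ y ≠ 0 ∨ z ≠ 0) ∧ a * x ^ 2 + b * y ^ 2 + c * z ^ 2 = 0 := by
  constructor
  · rintro ⟨w, hw, h0⟩
    refine ⟨w 0, w 1, w 2, ?_, by simpa [Fin.sum_univ_three] using h0⟩
    by_contra hc
    push Not at hc
    apply hw
    funext i
    fin_cases i
    · exact hc.1
    · exact hc.2.1
    · exact hc.2.2
  · rintro ⟨x, y, z, hw, h0⟩
    refine ⟨![x, y, z], fun h1 => ?_, by simpa [Fin.sum_univ_three] using h0⟩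
    rcases hw with h | h | h
    · exact h (congrFun h1 0)
    · exact h (congrFun h1 1)
    · exact h (congrFun h1 2)

lemma iso_three_of_two [CharZero K] {a b : K} (ha : a ≠ 0) (hb : b ≠ 0) {x y : K}
    (h : x ≠ 0 ∨ y ≠ 0) (e : a * x ^ 2 + b * y ^ 2 = 0) (t : K) : Iso ![a, b, t] :=
  (iso_three_iff _ _ _).2 ⟨x, y, 0, by tauto, by rw [e]; ring⟩

lemma Iso.split [CharZero K] {n : ℕ} {a b : K} {g : Fin (n + 1) → K} (ha : a ≠ 0) (hb : b ≠ 0)
    (hg : ∀ i, g i ≠ 0) (h : Iso (Matrix.vecCons a (Matrix.vecCons b g))) :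
    ∃ t : K, t ≠ 0 ∧ Iso ![a, b, -t] ∧ Iso (Matrix.vecCons t g) := by
  obtain ⟨x, w, hw, h0⟩ := (iso_cons_iff _ _).1 h
  rw [Fin.sum_univ_succ] at h0
  simp only [Matrix.cons_val_zero, Matrix.cons_val_succ] at h0
  by_cases ht : a * x ^ 2 + b * w 0 ^ 2 = 0
  · by_cases hxy : x ≠ 0 ∨ w 0 ≠ 0
    · refine ⟨-g 0, neg_ne_zero.2 (hg 0), iso_three_of_two ha hb hxy ht _, ?_⟩
      refine (iso_cons_iff _ _).2 ⟨1, Pi.single 0 1, Or.inl one_ne_zero, ?_⟩
      simp [Fin.sum_univ_succ]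
    · push Not at hxy
      refine ⟨a, ha, (iso_three_iff _ _ _).2 ⟨1, 0, 1, Or.inl one_ne_zero, by ring⟩, ?_⟩
      refine (iso_cons_iff _ _).2 ⟨0, fun i => w i.succ, Or.inr fun h1 => ?_, ?_⟩
      · rcases hw with h2 | h2
        · exact h2 hxy.1
        · apply h2
          funext i
          exact Fin.cases hxy.2 (fun j => congrFun h1 j) i
      · linear_combination h0 - ht
  · refine ⟨a * x ^ 2 + b * w 0 ^ 2, ht,
      (iso_three_iff _ _ _).2 ⟨x, w 0, 1, Or.inr (Or.inr one_ne_zero), by ring⟩,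
      (iso_cons_iff _ _).2 ⟨1, fun i => w i.succ, Or.inl one_ne_zero, ?_⟩⟩
    linear_combination h0

lemma Iso.merge {n : ℕ} {a b t : K} {g : Fin n → K} (ht : t ≠ 0) (h1 : Iso ![a, b, -t])
    (h2 : Iso (Matrix.vecCons t g)) : Iso (Matrix.vecCons a (Matrix.vecCons b g)) := by
  obtain ⟨x, y, z, hne, e1⟩ := (iso_three_iff _ _ _).1 h1
  obtain ⟨s, w, hw, e2⟩ := (iso_cons_iff _ _).1 h2
  by_cases hz : z = 0
  · refine (iso_cons_iff _ _).2 ⟨x, Matrix.vecCons y 0, ?_, ?_⟩
    · rcases hne with h | h | h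
      · exact Or.inl h
      · exact Or.inr fun h3 => h (congrFun h3 0)
      · exact absurd hz h
    · rw [hz] at e1
      simp only [Fin.sum_univ_succ, Matrix.cons_val_zero, Matrix.cons_val_succ, Pi.zero_apply]
      simpa using e1
  · have hw0 : w ≠ 0 := by
      rintro rfl
      simp only [Pi.zero_apply, ne_eq, OfNat.ofNat_ne_zero, not_false_eq_true, zero_pow, mul_zero,
        Finset.sum_const_zero, add_zero, mul_eq_zero, pow_eq_zero_iff] at e2
      rcases hw with h | h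
      · exact h (e2.resolve_left ht)
      · exact h rfl
    refine (iso_cons_iff _ _).2 ⟨x * s / z, Matrix.vecCons (y * s / z) w,
      Or.inr fun h3 => hw0 (funext fun j => congrFun h3 j.succ), ?_⟩
    simp only [Fin.sum_univ_succ, Matrix.cons_val_zero, Matrix.cons_val_succ]
    have e3 : a * (x * s / z) ^ 2 + b * (y * s / z) ^ 2 = t * s ^ 2 := by
      field_simp
      linear_combination s ^ 2 * e1
    linear_combination e3 + e2

/-- an isotropic nondegenerate form has an isotropic vector off any hyperplane -/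
lemma Iso.off_hyperplane [CharZero K] {c l : ι → K} (hc : ∀ i, c i ≠ 0) (hl : l ≠ 0) (h : Iso c) :
    ∃ w : ι → K, ∑ i, l i * w i ≠ 0 ∧ ∑ i, c i * w i ^ 2 = 0 := by
  classical
  obtain ⟨w, hw, h0⟩ := h
  by_cases h1 : ∑ i, l i * w i ≠ 0
  · exact ⟨w, h1, h0⟩
  push Not at h1
  obtain ⟨i, hi⟩ := Function.ne_iff.1 hl
  obtain ⟨j, hj⟩ := Function.ne_iff.1 hw
  obtain ⟨u, hu1, hu2⟩ : ∃ u : ι → K, ∑ k, l k * u k ≠ 0 ∧ ∑ k, c k * w k * u k ≠ 0 := by
    have s1 : ∀ (f : ι → K) (k : ι), ∑ m, f m * (Pi.single k 1 : ι → K) m = f k := by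
      intro f k
      rw [Finset.sum_eq_single k] <;> simp +contextual
    by_cases a1 : c i * w i ≠ 0
    · exact ⟨Pi.single i 1, by rw [s1]; exact hi, by rw [s1 (fun k => c k * w k)]; exact a1⟩
    by_cases a2 : l j ≠ 0
    · exact ⟨Pi.single j 1, by rw [s1]; exact a2,
        by rw [s1 (fun k => c k * w k)]; exact mul_ne_zero (hc j) hj⟩
    push Not at a1 a2
    refine ⟨Pi.single i 1 + Pi.single j 1, ?_, ?_⟩
    · simp only [Pi.add_apply, mul_add, Finset.sum_add_distrib]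
      rw [s1, s1, a2, add_zero]
      exact hi
    · simp only [Pi.add_apply, mul_add, Finset.sum_add_distrib]
      rw [s1 (fun k => c k * w k), s1 (fun k => c k * w k), a1, zero_add]
      exact mul_ne_zero (hc j) hj
  obtain ⟨s, hs⟩ : ∃ s : K, s * (2 * ∑ k, c k * w k * u k) = ∑ k, c k * u k ^ 2 :=
    ⟨_, div_mul_cancel₀ _ (mul_ne_zero two_ne_zero hu2)⟩
  refine ⟨fun k => u k - s * w k, ?_, ?_⟩
  · have : ∀ k, l k * (u k - s * w k) = l k * u k - s * (l k * w k) := fun k => by ring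
    simp only [this, Finset.sum_sub_distrib]
    rwa [← Finset.mul_sum, h1, mul_zero, sub_zero]
  · have : ∀ k, c k * (u k - s * w k) ^ 2 =
        c k * u k ^ 2 - 2 * s * (c k * w k * u k) + s ^ 2 * (c k * w k ^ 2) := fun k => by ring
    simp only [this, Finset.sum_add_distrib, Finset.sum_sub_distrib]
    rw [← Finset.mul_sum, ← Finset.mul_sum, h0]
    linear_combination -hs

end Pool.Agent.Lib.HasseMinkowski
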