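import Pool.Agent.Lib.HasseMinkowski.Symbol

/-!
Legendre's theorem: a conic with trivial symbols at the odd primes and at the real place has a
rational point.
-/

set_option autoImplicit false

namespace Pool.Agent.Lib.HasseMinkowski

lemma sq_mod_mul {a m n : ℤ} (h : IsCoprime m n) (hm : ∃ t, m ∣ t ^ 2 - a)
    (hn : ∃ t, n ∣ t ^ 2 - a) : ∃ t, m * n ∣ t ^ 2 - a := by
  obtain ⟨s, c, hs⟩ := hm
  obtain ⟨t, d, ht⟩ := hn
  obtain ⟨u, v, e⟩ := h
  refine ⟨s * (v * n) + t * (u * m), IsCoprime.mul_dvd ⟨u, v, e⟩ ?_ ?_⟩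
  · have e1 : s * (v * n) + t * (u * m) = s + m * (u * (t - s)) := by
      linear_combination s * e
    rw [e1]
    exact ⟨c + 2 * s * (u * (t - s)) + m * (u * (t - s)) ^ 2, by linear_combination hs⟩
  · have e1 : s * (v * n) + t * (u * m) = t + n * (v * (s - t)) := by
      linear_combination t * e
    rw [e1]
    exact ⟨d + 2 * t * (v * (s - t)) + n * (v * (s - t)) ^ 2, by linear_combination ht⟩

lemma sq_mod_squarefree {a : ℤ} : ∀ b : ℤ, b ≠ 0 → Squarefree b →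
    (∀ p : ℕ, p.Prime → (p : ℤ) ∣ b → ∃ t, (p : ℤ) ∣ t ^ 2 - a) → ∃ t, b ∣ t ^ 2 - a := by
  refine int_ind _ (fun _ _ => ⟨0, one_dvd _⟩) (fun _ _ => ⟨0, neg_dvd.2 (one_dvd _)⟩)
    (fun l b hl hb ih hsq h => ?_)
  have hP := Nat.prime_iff_prime_int.1 hl
  have hnd : ¬ (l : ℤ) ∣ b := by
    intro h1
    exact hP.not_isUnit (hsq l (mul_dvd_mul_left _ h1))
  exact sq_mod_mul (hP.coprime_iff_not_dvd.2 hnd) (h l hl (dvd_mul_right _ _))
    (ih (Squarefree.of_mul_right hsq) fun p hp h1 => h p hp (h1.mul_left _))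

lemma sq_mod_prime {a b : ℤ} (hsq : Squarefree b) (h : ∀ p, hs p a b = 1) (p : ℕ) (hp : p.Prime)
    (hd : (p : ℤ) ∣ b) : ∃ t, (p : ℤ) ∣ t ^ 2 - a := by
  by_cases h2 : p = 2
  · subst h2
    refine ⟨a, ?_⟩
    have h1 : a ^ 2 - a = a * (a - 1) := by ring
    rw [h1]
    exact (Int.even_mul_pred_self a).two_dvd
  by_cases ha : (p : ℤ) ∣ a
  · exact ⟨0, by simpa using ha⟩
  obtain ⟨v, rfl⟩ := hd
  have hP := Nat.prime_iff_prime_int.1 hp
  have hv : ¬ (p : ℤ) ∣ v := fun h1 => hP.not_isUnit (hsq p (mul_dvd_mul_left _ h1))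
  have h3 := hs_decomp hp h2 0 1 ha hv
  simp only [pow_zero, pow_one, one_mul, mul_one] at h3
  rw [h p] at h3
  have := Fact.mk hp
  obtain ⟨r, hr⟩ := ZMod.isSquare_of_jacobiSym_eq_one h3.symm
  obtain ⟨t, rfl⟩ := ZMod.intCast_surjective r
  refine ⟨t, (ZMod.intCast_zmod_eq_zero_iff_dvd _ _).1 ?_⟩
  push_cast
  rw [hr]
  ring

lemma legendre_step {a b : ℤ} (ha : a ≠ 0) (hb : b ≠ 0) (hab : |a| ≤ |b|) (h : ∀ p, hs p a b = 1)
    (hi : ¬ (a < 0 ∧ b < 0))
    (ih : ∀ b' : ℤ, b' ≠ 0 → |b'| < |b| → (∀ p, hs p a b' = 1) → ¬ (a < 0 ∧ b' < 0) → Solv a b') :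
    Solv a b := by
  by_cases hsq : Squarefree b
  swap
  · unfold Squarefree at hsq
    push Not at hsq
    obtain ⟨c, ⟨d, hd⟩, hc⟩ := hsq
    have hd' : b = d * c ^ 2 := by rw [hd]; ring
    have hc0 : c ≠ 0 := by
      rintro rfl
      apply hb
      rw [hd']
      ring
    have hd0 : d ≠ 0 := by
      rintro rfl
      apply hb
      rw [hd']
      ring
    have hc2 : 2 ≤ |c| := by
      rw [Int.isUnit_iff_abs_eq] at hc
      have := abs_pos.2 hc0
      omega
    have hcc : 4 ≤ c ^ 2 := by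
      rw [← sq_abs]
      nlinarith
    rw [hd']
    refine (ih d hd0 ?_ (fun p => ?_) ?_).mul_sq hc0
    · rw [hd', abs_mul, abs_of_nonneg (sq_nonneg c)]
      have := abs_pos.2 hd0
      nlinarith
    · rw [← hs_mul_sq p ha hd0 hc0, ← hd']
      exact h p
    · rintro ⟨h1, h2⟩
      refine hi ⟨h1, ?_⟩
      rw [hd']
      exact mul_neg_of_neg_of_pos h2 (by linarith)
  by_cases h1 : |b| = 1
  · have h2 : |a| = 1 := by
      have := abs_pos.2 ha
      omega
    rcases abs_eq (by norm_num : (0 : ℤ) ≤ 1) |>.1 h1 with rfl | rfl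
    · exact ⟨0, 1, 1, by simp, by ring⟩
    · rcases abs_eq (by norm_num : (0 : ℤ) ≤ 1) |>.1 h2 with rfl | rfl
      · exact ⟨1, 0, 1, by simp, by ring⟩
      · exact absurd ⟨by norm_num, by norm_num⟩ hi
  have hb2 : 2 ≤ |b| := by
    have := abs_pos.2 hb
    omega
  obtain ⟨t₀, ht₀⟩ := sq_mod_squarefree (a := a) b hb hsq (sq_mod_prime hsq h)
  obtain ⟨t, ht, htb⟩ : ∃ t : ℤ, b ∣ t ^ 2 - a ∧ 2 * |t| ≤ |b| := by
    have m1 := Int.emod_nonneg t₀ hb
    have m2 := Int.emod_lt_abs t₀ hb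
    have m3 : b ∣ t₀ % b - t₀ := ⟨-(t₀ / b), by linear_combination Int.emod_add_mul_ediv t₀ b⟩
    have key : ∀ t : ℤ, b ∣ t - t₀ → b ∣ t ^ 2 - a := by
      intro t h3
      have e : t ^ 2 - a = (t - t₀) * (t + t₀) + (t₀ ^ 2 - a) := by ring
      rw [e]
      exact dvd_add (h3.mul_right _) ht₀
    by_cases h3 : 2 * (t₀ % b) ≤ |b|
    · exact ⟨t₀ % b, key _ m3, by rwa [abs_of_nonneg m1]⟩
    · refine ⟨t₀ % b - |b|, key _ ?_, ?_⟩
      · have e : t₀ % b - |b| - t₀ = (t₀ % b - t₀) - |b| := by ring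
        rw [e]
        exact dvd_sub m3 ((dvd_abs _ _).2 dvd_rfl)
      · rw [abs_of_nonpos (by omega)]
        omega
  obtain ⟨b', hb'⟩ := ht
  by_cases h0 : b' = 0
  · refine ⟨1, 0, t, by simp, ?_⟩
    rw [h0] at hb'
    linear_combination -hb'
  have hlt : |b'| < |b| := by
    have e1 : |b| * |b'| = |t ^ 2 - a| := by rw [hb', abs_mul]
    have e2 : |t ^ 2 - a| ≤ |t| ^ 2 + |a| := by
      refine (abs_sub _ _).trans ?_
      rw [abs_pow]
    have e3 := abs_nonneg t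
    by_contra hc
    have hc' : |b| ≤ |b'| := not_lt.1 hc
    have e4 : |b| * |b| ≤ |b| * |b'| := mul_le_mul_of_nonneg_left hc' (abs_nonneg _)
    nlinarith
  have hbb : b * b' ≠ 0 := mul_ne_zero hb h0
  have hsol : Solv a (b * b') := ⟨1, 1, t, by simp, by linear_combination -hb'⟩
  obtain ⟨x, y, z, hne, e⟩ := ih b' h0 hlt (fun p => by
      have h3 := hs_one_of_solv p ha hbb hsol
      rwa [hs_mul_right p ha hb h0, h p, one_mul] at h3) (by
      rintro ⟨h3, h4⟩
      have h5 : 0 < b := by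
        rcases lt_or_gt_of_ne hb with h6 | h6
        · exact absurd ⟨h3, h6⟩ hi
        · exact h6
      have := mul_neg_of_pos_of_neg h5 h4
      nlinarith [sq_nonneg t])
  refine ⟨z + t * x, b' * y, z * t + a * x, ?_, ?_⟩
  · by_contra hc
    push Not at hc
    obtain ⟨c1, c2, c3⟩ := hc
    have y0 : y = 0 := (mul_eq_zero.1 c2).resolve_left h0
    have x0 : x = 0 := by
      have : b * b' * x = 0 := by linear_combination t * c1 - c3 - x * hb'
      exact (mul_eq_zero.1 this).resolve_left hbb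
    have z0 : z = 0 := by
      rw [x0] at c1
      simpa using c1
    rcases hne with h | h | h <;> contradiction
  · linear_combination (t ^ 2 - a) * e - b' * y ^ 2 * hb'

/-- Legendre's theorem -/
theorem legendre : ∀ (n : ℕ) (a b : ℤ), a.natAbs + b.natAbs ≤ n → a ≠ 0 → b ≠ 0 →
    (∀ p, hs p a b = 1) → ¬ (a < 0 ∧ b < 0) → Solv a b := by
  intro n
  induction n with
  | zero =>
    intro a b h ha
    exfalso
    omega
  | succ n ih =>
    intro a b hn ha hb h hi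
    rcases le_total |a| |b| with hab | hab
    · refine legendre_step ha hb hab h hi fun b' h0 hlt h1 h2 => ih a b' ?_ ha h0 h1 h2
      rw [Int.abs_eq_natAbs, Int.abs_eq_natAbs] at hlt
      omega
    · refine (legendre_step hb ha hab (fun p => by rw [hs_symm, h p]) (by tauto)
        fun b' h0 hlt h1 h2 => ih b b' ?_ hb h0 h1 h2).symm
      rw [Int.abs_eq_natAbs, Int.abs_eq_natAbs] at hlt
      omega

end Pool.Agent.Lib.HasseMinkowski
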