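import Pool.Agent.Lib.HasseMinkowski.Symbol
import Pool.Agent.Lib.HasseMinkowski.Iso

/-!
Local facts: squares near one, unimodular ternary forms, symbols of locally solvable conics,
approximation with one extra prime.
-/

set_option autoImplicit false

namespace Pool.Agent.Lib.HasseMinkowski

section
variable {p : ℕ} [hp : Fact p.Prime]

lemma sq_near_one' {x : ℚ_[p]} (h : ‖x - 1‖ < ‖(4 : ℚ_[p])‖) : IsSquare x := by
  have h4 : ‖(4 : ℚ_[p])‖ ≤ 1 := by exact_mod_cast Padic.norm_int_le_one (p := p) 4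
  have hx : ‖x‖ ≤ 1 := by
    have h1 := Padic.nonarchimedean (x - 1) 1
    rw [sub_add_cancel, norm_one] at h1
    exact h1.trans (max_le (h.le.trans h4) le_rfl)
  obtain ⟨y, hy⟩ : ∃ y : ℤ_[p], (y : ℚ_[p]) = x := ⟨⟨x, hx⟩, rfl⟩
  have key := hensels_lemma (p := p) (F := (Polynomial.X ^ 2 - Polynomial.C y : Polynomial ℤ_[p]))
    (a := 1) (by
      simp only [map_sub, map_pow, Polynomial.aeval_X, Polynomial.aeval_C, one_pow,
        Algebra.algebraMap_self, RingHom.id_apply, Polynomial.derivative_X_pow,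
        Polynomial.derivative_C, sub_zero, map_mul, mul_one]
      rw [← norm_pow, norm_sub_rev, PadicInt.norm_def, PadicInt.norm_def]
      have e1 : (((y - 1 : ℤ_[p])) : ℚ_[p]) = x - 1 := by
        rw [PadicInt.coe_sub, hy, PadicInt.coe_one]
      have e2 : (((((2 : ℕ) : ℤ_[p]) ^ 2 : ℤ_[p])) : ℚ_[p]) = 4 := by
        rw [PadicInt.coe_pow, PadicInt.coe_natCast]
        norm_num
      rw [e1, e2]
      exact h)
  obtain ⟨z, hz, -⟩ := key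
  simp only [map_sub, map_pow, Polynomial.aeval_X, Polynomial.aeval_C,
    Algebra.algebraMap_self, RingHom.id_apply] at hz
  refine ⟨z, ?_⟩
  rw [← hy, ← sub_eq_zero.1 hz, PadicInt.coe_pow, sq]

lemma lt_norm_four : (p : ℝ) ^ (-(3 : ℕ) : ℤ) < ‖(4 : ℚ_[p])‖ := by
  by_contra hc
  have h1 : ‖((4 : ℤ) : ℚ_[p])‖ ≤ (p : ℝ) ^ (-(3 : ℕ) : ℤ) := by
    exact_mod_cast not_lt.1 hc
  have h2 := Int.le_of_dvd (by norm_num) ((Padic.norm_int_le_pow_iff_dvd 4 3).1 h1)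
  have h3 : (2 : ℤ) ≤ p := by exact_mod_cast hp.out.two_le
  have h4 : (2 : ℤ) ^ 3 ≤ (p : ℤ) ^ 3 := pow_le_pow_left₀ (by norm_num) h3 3
  omega

lemma sq_near_one {x : ℚ_[p]} (h : ‖x - 1‖ ≤ (p : ℝ) ^ (-(3 : ℕ) : ℤ)) : IsSquare x :=
  sq_near_one' (h.trans_lt lt_norm_four)

lemma pow_neg_three_pos : 0 < (p : ℝ) ^ (-(3 : ℕ) : ℤ) :=
  zpow_pos (by exact_mod_cast hp.out.pos) _

lemma pow_neg_three_lt_one : (p : ℝ) ^ (-(3 : ℕ) : ℤ) < 1 :=
  lt_norm_four.trans_le (by exact_mod_cast Padic.norm_int_le_one (p := p) 4)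

lemma norm_eq_one_of_not_dvd {u : ℤ} (hu : ¬ (p : ℤ) ∣ u) : ‖(u : ℚ_[p])‖ = 1 :=
  le_antisymm (Padic.norm_int_le_one u) (not_lt.1 fun h => hu (Padic.norm_intCast_lt_one_iff.1 h))

lemma iso_unimodular (h2 : p ≠ 2) {a b c : ℚ_[p]} (ha : ‖a‖ = 1) (hb : ‖b‖ = 1) (hc : ‖c‖ = 1) :
    Iso ![a, b, c] := by
  obtain ⟨A, rfl⟩ : ∃ y : ℤ_[p], (y : ℚ_[p]) = a := ⟨⟨a, ha.le⟩, rfl⟩
  obtain ⟨B, rfl⟩ : ∃ y : ℤ_[p], (y : ℚ_[p]) = b := ⟨⟨b, hb.le⟩, rfl⟩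
  obtain ⟨C, rfl⟩ : ∃ y : ℤ_[p], (y : ℚ_[p]) = c := ⟨⟨c, hc.le⟩, rfl⟩
  have ker : ∀ y : ℤ_[p], PadicInt.toZMod y = 0 ↔ ‖y‖ < 1 := by
    intro y
    rw [← RingHom.mem_ker, PadicInt.ker_toZMod, IsLocalRing.mem_maximalIdeal,
      PadicInt.mem_nonunits]
  have nA : PadicInt.toZMod A ≠ 0 := fun h => ((ker A).1 h).ne ha
  have nB : PadicInt.toZMod B ≠ 0 := fun h => ((ker B).1 h).ne hb
  obtain ⟨x, y, e⟩ := FiniteField.exists_root_sum_quadratic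
    (f := Polynomial.C (PadicInt.toZMod A) * Polynomial.X ^ 2)
    (g := Polynomial.C (PadicInt.toZMod B) * Polynomial.X ^ 2 + Polynomial.C (PadicInt.toZMod C))
    (Polynomial.degree_C_mul_X_pow 2 nA)
    (by
      rw [Polynomial.degree_add_C (by rw [Polynomial.degree_C_mul_X_pow 2 nB]; decide),
        Polynomial.degree_C_mul_X_pow 2 nB]
      rfl)
    (by rw [ZMod.card]; exact hp.out.eq_two_or_odd.resolve_left h2)
  obtain ⟨X, rfl⟩ := ZMod.ringHom_surjective PadicInt.toZMod x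
  obtain ⟨Y, rfl⟩ := ZMod.ringHom_surjective PadicInt.toZMod y
  have h1 : ‖A * X ^ 2 + B * Y ^ 2 + C‖ < 1 := by
    rw [← ker]
    simp only [Polynomial.eval_mul, Polynomial.eval_C, Polynomial.eval_pow, Polynomial.eval_X,
      Polynomial.eval_add] at e
    simp only [map_add, map_mul, map_pow]
    linear_combination e
  have c0 : (C : ℚ_[p]) ≠ 0 := by
    intro h
    rw [h, norm_zero] at hc
    exact zero_ne_one hc
  have h4 : ‖(4 : ℚ_[p])‖ = 1 := by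
    have h5 : ¬ (p : ℤ) ∣ 4 := by
      intro h
      have h6 : (p : ℤ) ∣ ((2 : ℕ) : ℤ) :=
        (Nat.prime_iff_prime_int.1 hp.out).dvd_of_dvd_pow (n := 2) (by simpa using h)
      exact not_dvd_prime hp.out Nat.prime_two h2 h6
    exact_mod_cast norm_eq_one_of_not_dvd h5
  obtain ⟨z, hz⟩ : IsSquare (-((A : ℚ_[p]) * X ^ 2 + B * Y ^ 2) / C) := by
    apply sq_near_one'
    have e1 : -((A : ℚ_[p]) * X ^ 2 + B * Y ^ 2) / C - 1 =
        -(((A * X ^ 2 + B * Y ^ 2 + C : ℤ_[p]) : ℚ_[p])) / C := by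
      rw [PadicInt.coe_add, PadicInt.coe_add, PadicInt.coe_mul, PadicInt.coe_mul, PadicInt.coe_pow,
        PadicInt.coe_pow]
      field_simp
      ring
    rw [e1, norm_div, norm_neg, hc, h4, div_one]
    exact h1
  rw [div_eq_iff c0] at hz
  refine (iso_three_iff _ _ _).2 ⟨X, Y, z, ?_, by linear_combination -hz⟩
  by_contra hn
  push Not at hn
  have hX : X = 0 := PadicInt.coe_eq_zero.1 hn.1
  have hY : Y = 0 := PadicInt.coe_eq_zero.1 hn.2.1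
  rw [hX, hY] at h1
  simp only [ne_eq, OfNat.ofNat_ne_zero, not_false_eq_true, zero_pow, mul_zero, zero_add] at h1
  exact h1.ne hc

lemma rat_near_one {r : ℚ} (h : ‖(r : ℚ_[p]) - 1‖ ≤ (p : ℝ) ^ (-(3 : ℕ) : ℤ)) :
    ¬ (p : ℤ) ∣ r.den ∧ (p : ℤ) ^ 3 ∣ r.num - r.den := by
  have hr : ‖(r : ℚ_[p])‖ = 1 := by
    have h1 := Padic.norm_eq_of_norm_sub_lt_right (z1 := (r : ℚ_[p])) (z2 := 1)
      (by rw [norm_one]; exact h.trans_lt pow_neg_three_lt_one)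
    rwa [norm_one] at h1
  have e : ((r.num : ℤ) : ℚ_[p]) = r * ((r.den : ℤ) : ℚ_[p]) := by
    rw [← Rat.cast_intCast, ← Rat.mul_den_eq_num r, Rat.cast_mul, Rat.cast_natCast,
      Int.cast_natCast]
  constructor
  · intro hd
    have h1 := Padic.norm_intCast_lt_one_iff.2 hd
    have h2 : ‖((r.num : ℤ) : ℚ_[p])‖ < 1 := by rwa [e, norm_mul, hr, one_mul]
    have h3 := Padic.norm_intCast_lt_one_iff.1 h2
    have h4 : IsCoprime r.num (r.den : ℤ) := Int.isCoprime_iff_gcd_eq_one.2 r.reduced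
    exact (Nat.prime_iff_prime_int.1 hp.out).not_isUnit (h4.isUnit_of_dvd' h3 hd)
  · rw [← Padic.norm_int_le_pow_iff_dvd]
    have e2 : ((r.num - r.den : ℤ) : ℚ_[p]) = (r - 1) * ((r.den : ℤ) : ℚ_[p]) := by
      rw [Int.cast_sub, e]
      ring
    rw [e2, norm_mul]
    exact (mul_le_of_le_one_right (norm_nonneg _) (Padic.norm_int_le_one _)).trans h

lemma approx_solv {a b : ℤ} (hb : b ≠ 0) {x z : ℚ_[p]} (h : (b : ℚ_[p]) = z ^ 2 - a * x ^ 2) :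
    ∃ B c n d : ℤ, d ≠ 0 ∧ ¬ (p : ℤ) ∣ n ∧ (p : ℤ) ^ 3 ∣ c - n ^ 2 ∧ Solv a B ∧
      B * n ^ 2 = b * c * d ^ 2 := by
  have hb' : (b : ℚ_[p]) ≠ 0 := by exact_mod_cast hb
  have hU : IsOpen {v : ℚ_[p] × ℚ_[p] |
      ‖(v.2 ^ 2 - a * v.1 ^ 2) / b - 1‖ < (p : ℝ) ^ (-(3 : ℕ) : ℤ)} :=
    isOpen_lt (by fun_prop) continuous_const
  obtain ⟨⟨x', z'⟩, hv⟩ := ((Padic.denseRange_ratCast p).prodMap
    (Padic.denseRange_ratCast p)).exists_mem_open hU ⟨(x, z), by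
      show ‖(z ^ 2 - a * x ^ 2) / b - 1‖ < _
      rw [← h, div_self hb', sub_self, norm_zero]
      exact pow_neg_three_pos⟩
  obtain ⟨r, hr⟩ : ∃ r : ℚ, r = (z' ^ 2 - a * x' ^ 2) / b := ⟨_, rfl⟩
  have h1 : ‖(r : ℚ_[p]) - 1‖ ≤ (p : ℝ) ^ (-(3 : ℕ) : ℤ) := by
    rw [hr]
    push_cast
    exact le_of_lt hv
  obtain ⟨h2, h3⟩ := rat_near_one h1
  refine ⟨(z'.num * x'.den) ^ 2 - a * (x'.num * z'.den) ^ 2, r.num * r.den, r.den,
    x'.den * z'.den, by positivity, h2, ?_, ⟨x'.num * z'.den, 1, z'.num * x'.den, by simp, by ring⟩,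
    ?_⟩
  · have e : r.num * r.den - (r.den : ℤ) ^ 2 = (r.num - r.den) * r.den := by ring
    rw [e]
    exact h3.mul_right _
  · have hbq : (b : ℚ) ≠ 0 := by exact_mod_cast hb
    rw [eq_div_iff hbq] at hr
    have e1 := Rat.mul_den_eq_num r
    have e2 := Rat.mul_den_eq_num x'
    have e3 := Rat.mul_den_eq_num z'
    have : (((z'.num * x'.den) ^ 2 - a * (x'.num * z'.den) ^ 2) * (r.den : ℚ) ^ 2 : ℚ) =
        b * (r.num * r.den) * (x'.den * z'.den) ^ 2 := by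
      rw [← e1, ← e2, ← e3]
      linear_combination (-(x'.den : ℚ) ^ 2 * (z'.den : ℚ) ^ 2 * (r.den : ℚ) ^ 2) * hr
    exact_mod_cast this

lemma local_phi (φ : ℤ → ℤ → ℤ) (symm : ∀ a b, φ a b = φ b a)
    (mul : ∀ a b c, a ≠ 0 → b ≠ 0 → c ≠ 0 → φ a (b * c) = φ a b * φ a c)
    (sol : ∀ a b, a ≠ 0 → b ≠ 0 → Solv a b → φ a b = 1)
    (near : ∀ a c n, a ≠ 0 → ¬ (p : ℤ) ∣ n → (p : ℤ) ^ 3 ∣ c - n ^ 2 → φ a c = 1)
    {a b : ℤ} (ha : a ≠ 0) (hb : b ≠ 0) (h : Iso ![(a : ℚ_[p]), b, -1]) : φ a b = 1 := by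
  have key : ∀ a b : ℤ, a ≠ 0 → b ≠ 0 → ∀ x y z : ℚ_[p], y ≠ 0 →
      a * x ^ 2 + b * y ^ 2 + -1 * z ^ 2 = 0 → φ a b = 1 := by
    intro a b ha hb x y z hy e
    obtain ⟨B, c, n, d, hd, hn, hc, hs, e2⟩ := approx_solv (p := p) (a := a) hb (x := x / y)
      (z := z / y) (by field_simp; linear_combination e)
    have n0 : n ≠ 0 := fun h => hn (h ▸ dvd_zero _)
    have c0 : c ≠ 0 := by
      rintro rfl
      apply hn
      refine (Nat.prime_iff_prime_int.1 hp.out).dvd_of_dvd_pow (n := 2) ?_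
      rw [zero_sub, dvd_neg] at hc
      exact (dvd_pow_self _ (by norm_num)).trans hc
    have B0 : B ≠ 0 := by
      rintro rfl
      exact mul_ne_zero (mul_ne_zero hb c0) (pow_ne_zero 2 hd) (by rw [← e2, zero_mul])
    have sq1 : ∀ k : ℤ, k ≠ 0 → φ a (k ^ 2) = 1 := fun k hk =>
      sol a _ ha (pow_ne_zero 2 hk) ⟨0, 1, k, by simp, by ring⟩
    have h1 := congrArg (φ a) e2
    rw [mul a _ _ ha B0 (pow_ne_zero 2 n0), mul a _ _ ha (mul_ne_zero hb c0) (pow_ne_zero 2 hd),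
      mul a _ _ ha hb c0, sol a B ha B0 hs, sq1 n n0, sq1 d hd, near a c n ha hn hc] at h1
    simpa using h1.symm
  obtain ⟨x, y, z, hne, e⟩ := (iso_three_iff _ _ _).1 h
  by_cases hy : y ≠ 0
  · exact key a b ha hb x y z hy e
  by_cases hx : x ≠ 0
  · rw [symm]
    exact key b a hb ha y x z hx (by linear_combination e)
  push Not at hx hy
  rw [hx, hy] at e
  have hz : z = 0 := by simpa using e
  rcases hne with h | h | h <;> contradiction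

lemma local_hs {a b : ℤ} (ha : a ≠ 0) (hb : b ≠ 0) (h : Iso ![(a : ℚ_[p]), b, -1]) :
    hs p a b = 1 := by
  refine local_phi (hs p) (hs_symm p) (fun a b c => hs_mul_right p)
    (fun a b => hs_one_of_solv p) (fun a c n ha hn hc => ?_) ha hb h
  have h1 : (p : ℤ) ∣ c - n ^ 2 := (dvd_pow_self _ (by norm_num)).trans hc
  refine hs_unit_right ha (fun h2 => hn ?_) ?_
  · refine (Nat.prime_iff_prime_int.1 hp.out).dvd_of_dvd_pow (n := 2) ?_
    have := dvd_sub h2 h1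
    simpa using this
  · rw [← jacobiSym.sq_one' (gcd_eq_one hp.out hn)]
    apply jacobiSym.mod_left'
    exact (Int.emod_emod_of_dvd _ dvd_rfl).symm.trans
      ((Int.emod_emod_of_dvd _ dvd_rfl).trans (Int.ModEq.symm (Int.modEq_iff_dvd.2 h1)))

lemma exists_int_near {t : ℚ_[p]} (ht : t ≠ 0) : ∃ T : ℤ, T ≠ 0 ∧ IsSquare ((T : ℚ_[p]) / t) := by
  obtain ⟨r, hr⟩ := Padic.rat_dense p t (mul_pos (pow_neg_three_pos (p := p)) (norm_pos_iff.2 ht))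
  have h1 : ‖(r : ℚ_[p]) / t - 1‖ ≤ (p : ℝ) ^ (-(3 : ℕ) : ℤ) := by
    rw [div_sub_one ht, norm_div, norm_sub_rev, div_le_iff₀ (norm_pos_iff.2 ht)]
    exact hr.le
  have r0 : r ≠ 0 := by
    rintro rfl
    simp only [Rat.cast_zero, zero_div, zero_sub, norm_neg, norm_one] at h1
    exact absurd (pow_neg_three_lt_one (p := p)) (not_lt.2 h1)
  refine ⟨r.num * r.den, mul_ne_zero (Rat.num_ne_zero.2 r0) (by exact_mod_cast r.den_nz), ?_⟩
  have e : ((r.num : ℤ) : ℚ_[p]) = r * ((r.den : ℤ) : ℚ_[p]) := by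
    rw [← Rat.cast_intCast, ← Rat.mul_den_eq_num r, Rat.cast_mul, Rat.cast_natCast,
      Int.cast_natCast]
  have e2 : ((r.num * r.den : ℤ) : ℚ_[p]) / t =
      (r : ℚ_[p]) / t * (((r.den : ℤ) : ℚ_[p]) * ((r.den : ℤ) : ℚ_[p])) := by
    rw [Int.cast_mul, e]
    ring
  rw [e2]
  exact (sq_near_one h1).mul (IsSquare.mul_self _)

end

lemma local_G {a b : ℤ} (ha : a ≠ 0) (hb : b ≠ 0) (h : Iso ![(a : ℚ_[2]), b, -1]) :
    G a b = 1 := by
  refine local_phi (p := 2) G G_symm (fun a b c => G_mul_right) (fun a b => G_of_solv)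
    (fun a c n ha hn hc => G_one_mod_eight ?_ a ha) ha hb h
  have h1 : n % 8 = 1 ∨ n % 8 = 3 ∨ n % 8 = 5 ∨ n % 8 = 7 := by omega
  have h2 : n ^ 2 % 8 = 1 := by
    rw [sq, Int.mul_emod]
    rcases h1 with h | h | h | h <;> rw [h] <;> norm_num
  norm_num at hc
  omega

lemma crt (S : Finset ℕ) (hS : ∀ p ∈ S, p.Prime) (e : ℕ → ℕ) (f : ℕ → ℤ) :
    ∃ r : ℤ, ∀ p ∈ S, (p : ℤ) ^ e p ∣ r - f p := by
  induction S using Finset.induction_on with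
  | empty => exact ⟨0, by simp⟩
  | insert q S hq ih =>
    obtain ⟨r, hr⟩ := ih fun p hp => hS p (Finset.mem_insert_of_mem hp)
    have hc : IsCoprime ((q : ℤ) ^ e q) (∏ p ∈ S, (p : ℤ) ^ e p) := by
      refine IsCoprime.prod_right fun p hp => IsCoprime.pow ?_
      rw [Nat.isCoprime_iff_coprime, Nat.coprime_primes (hS q (Finset.mem_insert_self _ _))
        (hS p (Finset.mem_insert_of_mem hp))]
      rintro rfl
      exact hq hp
    obtain ⟨u, v, h⟩ := hc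
    refine ⟨r + (f q - r) * (v * ∏ p ∈ S, (p : ℤ) ^ e p), fun p hp => ?_⟩
    rcases Finset.mem_insert.1 hp with rfl | hp
    · exact ⟨(r - f p) * u, by linear_combination (f p - r) * h⟩
    · have e1 : r + (f q - r) * (v * ∏ p ∈ S, (p : ℤ) ^ e p) - f p =
          (r - f p) + (f q - r) * v * ∏ p ∈ S, (p : ℤ) ^ e p := by ring
      rw [e1]
      exact dvd_add (hr p hp) ((Finset.dvd_prod_of_mem _ hp).mul_left _)

lemma approx_dirichlet (S : Finset ℕ) (hS : ∀ p ∈ S, p.Prime) (T : ℕ → ℤ) (hT : ∀ p ∈ S, T p ≠ 0)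
    {ε : ℤ} (hε : ε = 1 ∨ ε = -1) :
    ∃ (q : ℕ) (t : ℤ), q ≠ 2 ∧ q ∉ S ∧ 0 < ε * t ∧
      (∀ p : ℕ, p.Prime → p ∉ S → p ≠ q → ¬ (p : ℤ) ∣ t) ∧
      ∀ p ∈ S, ∀ [Fact p.Prime], IsSquare ((t : ℚ_[p]) / T p) := by
  have hεu : IsUnit ε := by rcases hε with rfl | rfl <;> simp
  have hεε : ε * ε = 1 := by rcases hε with rfl | rfl <;> simp
  have h1 : ∀ p, ∃ (k : ℕ) (u : ℤ), p ∈ S → T p = (p : ℤ) ^ k * u ∧ ¬ (p : ℤ) ∣ u := by
    intro p
    by_cases hp : p ∈ S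
    · obtain ⟨k, u, h⟩ := exists_decomp (hS p hp) (hT p hp)
      exact ⟨k, u, fun _ => h⟩
    · exact ⟨0, 0, fun h => absurd h hp⟩
  choose k u hku using h1
  have hnd : ∀ (p : ℕ) (R : Finset ℕ), p.Prime → R ⊆ S → p ∉ R →
      ¬ (p : ℤ) ∣ ε * ∏ l ∈ R, (l : ℤ) ^ k l := by
    intro p R hp hR hpR h
    have hP := Nat.prime_iff_prime_int.1 hp
    rcases hP.dvd_or_dvd h with h | h
    · exact hP.not_isUnit (isUnit_of_dvd_unit h hεu)
    · obtain ⟨l, hl, h⟩ := (Prime.dvd_finsetProd_iff hP _).1 h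
      exact not_dvd_prime hp (hS l (hR hl)) (fun h => hpR (h ▸ hl)) (hP.dvd_of_dvd_pow h)
  have h2 : ∀ p, ∃ ρ : ℤ, p ∈ S →
      (p : ℤ) ^ 3 ∣ (ε * ∏ l ∈ S.erase p, (l : ℤ) ^ k l) * ρ - u p := by
    intro p
    by_cases hp : p ∈ S
    · have hc : IsCoprime ((p : ℤ) ^ 3) (ε * ∏ l ∈ S.erase p, (l : ℤ) ^ k l) :=
        IsCoprime.pow_left ((Nat.prime_iff_prime_int.1 (hS p hp)).coprime_iff_not_dvd.2
          (hnd p _ (hS p hp) (Finset.erase_subset _ _) (Finset.notMem_erase _ _)))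
      obtain ⟨a, b, h⟩ := hc
      exact ⟨b * u p, fun _ => ⟨-(a * u p), by linear_combination u p * h⟩⟩
    · exact ⟨0, fun h => absurd h hp⟩
  choose ρ hρ using h2
  obtain ⟨r, hr⟩ := crt S hS (fun _ => 3) ρ
  have hru : ∀ p ∈ S, (p : ℤ) ^ 3 ∣ (ε * ∏ l ∈ S.erase p, (l : ℤ) ^ k l) * r - u p := by
    intro p hp
    have := dvd_add (hρ p hp) ((hr p hp).mul_left (ε * ∏ l ∈ S.erase p, (l : ℤ) ^ k l))
    rwa [show (ε * ∏ l ∈ S.erase p, (l : ℤ) ^ k l) * ρ p - u p +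
      (ε * ∏ l ∈ S.erase p, (l : ℤ) ^ k l) * (r - ρ p) =
      (ε * ∏ l ∈ S.erase p, (l : ℤ) ^ k l) * r - u p by ring] at this
  have hcop : IsCoprime r ((∏ p ∈ S, p ^ 3 : ℕ) : ℤ) := by
    push_cast
    refine IsCoprime.prod_right fun p hp => IsCoprime.pow_right (IsCoprime.symm ?_)
    refine (Nat.prime_iff_prime_int.1 (hS p hp)).coprime_iff_not_dvd.2 fun h => (hku p hp).2 ?_
    have h3 := (dvd_pow_self (p : ℤ) (by norm_num : 3 ≠ 0)).trans (hru p hp)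
    have := dvd_sub (h.mul_left (ε * ∏ l ∈ S.erase p, (l : ℤ) ^ k l)) h3
    simpa using this
  obtain ⟨q, hq1, hq2, hq3⟩ := Nat.forall_exists_prime_gt_and_zmodEq (S.sup id + 2)
    (Finset.prod_ne_zero_iff.2 fun p hp => pow_ne_zero 3 (hS p hp).ne_zero) hcop
  refine ⟨q, (ε * ∏ l ∈ S, (l : ℤ) ^ k l) * q, by omega, fun h => ?_, ?_, fun p hp hpS hpq => ?_,
    fun p hp _ => ?_⟩
  · have : q ≤ S.sup id := Finset.le_sup (f := id) h
    omega
  · have h3 : 0 < ∏ l ∈ S, (l : ℤ) ^ k l :=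
      Finset.prod_pos fun l hl => pow_pos (by exact_mod_cast (hS l hl).pos) _
    have h4 : (0 : ℤ) < q := by exact_mod_cast hq2.pos
    have e : ε * ((ε * ∏ l ∈ S, (l : ℤ) ^ k l) * q) = (∏ l ∈ S, (l : ℤ) ^ k l) * q := by
      linear_combination ((∏ l ∈ S, (l : ℤ) ^ k l) * q) * hεε
    rw [e]
    exact mul_pos h3 h4
  · exact not_dvd_mul hp (hnd p S hp subset_rfl hpS) (not_dvd_prime hp hq2 hpq)
  · apply sq_near_one
    have h3 : (p : ℤ) ^ 3 ∣ r - q := by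
      refine Dvd.dvd.trans ?_ hq3.dvd
      push_cast
      exact Finset.dvd_prod_of_mem (fun p : ℕ => (p : ℤ) ^ 3) hp
    have h4 : (p : ℤ) ^ 3 ∣ (ε * ∏ l ∈ S.erase p, (l : ℤ) ^ k l) * q - u p := by
      have := dvd_sub (hru p hp) (h3.mul_left (ε * ∏ l ∈ S.erase p, (l : ℤ) ^ k l))
      rwa [show (ε * ∏ l ∈ S.erase p, (l : ℤ) ^ k l) * r - u p -
        (ε * ∏ l ∈ S.erase p, (l : ℤ) ^ k l) * (r - q) =
        (ε * ∏ l ∈ S.erase p, (l : ℤ) ^ k l) * q - u p by ring] at this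
    have nu := norm_eq_one_of_not_dvd (hku p hp).2
    have u0 : ((u p : ℤ) : ℚ_[p]) ≠ 0 := by
      intro h
      rw [h, norm_zero] at nu
      exact zero_ne_one nu
    have p0 : (p : ℚ_[p]) ≠ 0 := by exact_mod_cast (hS p hp).ne_zero
    have e : ((((ε * ∏ l ∈ S, (l : ℤ) ^ k l) * q : ℤ) : ℚ_[p])) / T p - 1 =
        (((ε * ∏ l ∈ S.erase p, (l : ℤ) ^ k l) * q - u p : ℤ) : ℚ_[p]) / u p := by
      rw [(hku p hp).1, ← Finset.mul_prod_erase S _ hp]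
      generalize (∏ l ∈ S.erase p, (l : ℤ) ^ k l) = m
      push_cast
      field_simp
    rw [e, norm_div, nu, div_one]
    exact (Padic.norm_int_le_pow_iff_dvd _ 3).2 h4

end Pool.Agent.Lib.HasseMinkowski
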