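import Pool.Agent.Lib.HasseMinkowski.Legendre
import Pool.Agent.Lib.HasseMinkowski.Local

/-!
The Hasse-Minkowski theorem for diagonal quadratic forms over the rationals.
-/

set_option autoImplicit false

namespace Pool.Agent.Lib.HasseMinkowski

variable {ι : Type*} [Fintype ι]

/-- isotropy over the `p`-adic numbers (no condition if `p` is not prime) -/
def LocIso (p : ℕ) (c : ι → ℚ) : Prop := ∀ _hp : Fact p.Prime, Iso (fun i => (c i : ℚ_[p]))

/-- isotropy over the reals -/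
def RealIso (c : ι → ℚ) : Prop := Iso (fun i => (c i : ℝ))

lemma Iso.locIso {c : ι → ℚ} (h : Iso c) (p : ℕ) : LocIso p c :=
  fun _ => h.map (Rat.castHom ℚ_[p])

lemma Iso.realIso {c : ι → ℚ} (h : Iso c) : RealIso c := h.map (Rat.castHom ℝ)

lemma cast_cons {K : Type*} [Field K] {n : ℕ} (a : ℚ) (g : Fin n → ℚ) :
    (fun i => ((Matrix.vecCons a g i : ℚ) : K)) = Matrix.vecCons (a : K) (fun i => (g i : K)) := by
  funext i
  refine Fin.cases rfl (fun j => rfl) i

lemma cast_three {K : Type*} [Field K] (a b c : ℚ) :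
    (fun i => ((![a, b, c] i : ℚ) : K)) = ![(a : K), b, c] := by
  funext i
  fin_cases i <;> rfl

lemma exists_int_sq (r : ℚ) (hr : r ≠ 0) : ∃ (A : ℤ) (s : ℚ), A ≠ 0 ∧ s ≠ 0 ∧ (A : ℚ) = s ^ 2 * r := by
  refine ⟨r.num * r.den, r.den, mul_ne_zero (Rat.num_ne_zero.2 hr) (by exact_mod_cast r.den_nz),
    by exact_mod_cast r.den_nz, ?_⟩
  rw [Int.cast_mul, ← Rat.mul_den_eq_num r, Int.cast_natCast]
  ring

lemma hm_three {a b c : ℚ} (ha : a ≠ 0) (hb : b ≠ 0) (hc : c ≠ 0) (q : ℕ) (hq : q ≠ 2)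
    (h : ∀ p, p ≠ q → LocIso p ![a, b, c]) (hR : RealIso ![a, b, c]) : Iso ![a, b, c] := by
  obtain ⟨A, s, hA, hs0, eA⟩ := exists_int_sq (-c * a) (mul_ne_zero (neg_ne_zero.2 hc) ha)
  obtain ⟨B, t, hB, ht, eB⟩ := exists_int_sq (-c * b) (mul_ne_zero (neg_ne_zero.2 hc) hb)
  have tr : ∀ (K : Type) [Field K] [CharZero K], Iso (fun i => ((![a, b, c] i : ℚ) : K)) →
      Iso ![(A : K), B, -1] := by
    intro K _ _ h
    rw [cast_three] at h
    have c0 : (c : K) ≠ 0 := by exact_mod_cast hc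
    refine h.scale (-c) ![s, t, 1 / c] (fun i => ?_) (fun i => ?_)
    · fin_cases i
      · simpa using hs0
      · simpa using ht
      · simpa using hc
    · fin_cases i
      · have : ((A : ℚ) : K) = ((s ^ 2 * (-c * a) : ℚ) : K) := by rw [eA]
        push_cast at this
        simp only [Fin.zero_eta, Matrix.cons_val_zero]
        linear_combination this
      · have : ((B : ℚ) : K) = ((t ^ 2 * (-c * b) : ℚ) : K) := by rw [eB]
        push_cast at this
        simp only [Fin.mk_one, Matrix.cons_val_one, Matrix.cons_val_zero]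
        linear_combination this
      · simp only [Fin.reduceFinMk, Matrix.cons_val]
        field_simp
  have h1 : ∀ p, p ≠ q → hs p A B = 1 := by
    intro p hp
    by_cases h2 : p.Prime
    · have := Fact.mk h2
      exact local_hs hA hB (tr _ (h p hp this))
    · exact hs_of_not (fun h3 => h2 h3.1) _ _
  have h2 : ¬ (A < 0 ∧ B < 0) := by
    rintro ⟨a0, b0⟩
    obtain ⟨x, y, z, hne, e⟩ := (iso_three_iff _ _ _).1 (tr ℝ hR)
    have a1 : (A : ℝ) < 0 := by exact_mod_cast a0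
    have b1 : (B : ℝ) < 0 := by exact_mod_cast b0
    have u1 : (A : ℝ) * x ^ 2 ≤ 0 := mul_nonpos_of_nonpos_of_nonneg a1.le (sq_nonneg x)
    have u2 : (B : ℝ) * y ^ 2 ≤ 0 := mul_nonpos_of_nonpos_of_nonneg b1.le (sq_nonneg y)
    have u3 := sq_nonneg z
    rcases hne with h | h | h
    · have := mul_neg_of_neg_of_pos a1 (sq_pos_of_ne_zero h)
      linarith
    · have := mul_neg_of_neg_of_pos b1 (sq_pos_of_ne_zero h)
      linarith
    · have := sq_pos_of_ne_zero h
      linarith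
  have h3 : hs q A B = 1 := hs_last q h1 (if_neg h2) (local_G hA hB (tr _ (h 2 hq.symm _)))
  obtain ⟨x, y, z, hne, e⟩ := legendre _ A B le_rfl hA hB
    (fun p => by
      by_cases hp : p = q
      · rw [hp, h3]
      · exact h1 p hp) h2
  have e' : (A : ℚ) * x ^ 2 + B * y ^ 2 = z ^ 2 := by exact_mod_cast e
  refine (iso_three_iff _ _ _).2 ⟨s * x, t * y, z / c, ?_, ?_⟩
  · rcases hne with h | h | h
    · exact Or.inl (mul_ne_zero hs0 (by exact_mod_cast h))
    · exact Or.inr (Or.inl (mul_ne_zero ht (by exact_mod_cast h)))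
    · exact Or.inr (Or.inr (div_ne_zero (by exact_mod_cast h) hc))
  · rw [eA, eB] at e'
    field_simp
    linear_combination -e'

lemma exists_bad_set (c : ι → ℚ) (hc : ∀ i, c i ≠ 0) :
    ∃ S : Finset ℕ, (∀ p ∈ S, p.Prime) ∧ 2 ∈ S ∧
      ∀ p, p ∉ S → ∀ [Fact p.Prime], ∀ i, ‖(c i : ℚ_[p])‖ = 1 := by
  refine ⟨(2 * ∏ i, ((c i).num.natAbs * (c i).den)).primeFactors,
    fun p hp => Nat.prime_of_mem_primeFactors hp, ?_, fun p hp hP i => ?_⟩
  · refine Nat.mem_primeFactors.2 ⟨Nat.prime_two, dvd_mul_right _ _, mul_ne_zero two_ne_zero ?_⟩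
    exact Finset.prod_ne_zero_iff.2 fun i _ =>
      mul_ne_zero (Int.natAbs_ne_zero.2 (Rat.num_ne_zero.2 (hc i))) (c i).den_nz
  · have h1 : ¬ p ∣ (c i).num.natAbs * (c i).den := by
      intro h
      refine hp (Nat.mem_primeFactors.2 ⟨hP.out, (h.trans (Finset.dvd_prod_of_mem
        (fun i => (c i).num.natAbs * (c i).den) (Finset.mem_univ i))).mul_left _,
        mul_ne_zero two_ne_zero ?_⟩)
      exact Finset.prod_ne_zero_iff.2 fun i _ =>
        mul_ne_zero (Int.natAbs_ne_zero.2 (Rat.num_ne_zero.2 (hc i))) (c i).den_nz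
    have h2 : ¬ (p : ℤ) ∣ (c i).num := fun h => h1 ((Int.natCast_dvd.1 h).mul_right _)
    have h3 : ¬ (p : ℤ) ∣ ((c i).den : ℤ) := fun h =>
      h1 ((Int.natCast_dvd_natCast.1 h).mul_left _)
    rw [Rat.cast_def, norm_div, norm_eq_one_of_not_dvd h2, ← Int.cast_natCast,
      norm_eq_one_of_not_dvd h3, div_one]

lemma hm_step {n : ℕ} {a b : ℚ} {g : Fin (n + 2) → ℚ} (ha : a ≠ 0) (hb : b ≠ 0)
    (hg : ∀ i, g i ≠ 0) (h : ∀ p, LocIso p (Matrix.vecCons a (Matrix.vecCons b g)))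
    (hR : RealIso (Matrix.vecCons a (Matrix.vecCons b g))) :
    ∃ (t : ℚ) (q : ℕ), t ≠ 0 ∧ q ≠ 2 ∧ Iso ![a, b, -t] ∧
      (∀ p, p ≠ q → LocIso p (Matrix.vecCons t g)) ∧ RealIso (Matrix.vecCons t g) ∧
      ∀ [Fact q.Prime], ∀ i, ‖(g i : ℚ_[q])‖ = 1 := by
  have hc : ∀ i, Matrix.vecCons a (Matrix.vecCons b g) i ≠ 0 := fun i =>
    Fin.cases ha (fun j => Fin.cases hb (fun k => hg k) j) i
  obtain ⟨S, hS, h2S, hout⟩ := exists_bad_set _ hc
  have tr : ∀ (K : Type) [Field K] [CharZero K] (t t' : K), t ≠ 0 → t' ≠ 0 → IsSquare (t' / t) →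
      Iso ![(a : K), b, -t] → Iso (Matrix.vecCons t fun i => (g i : K)) →
      Iso ![(a : K), b, -t'] ∧ Iso (Matrix.vecCons t' fun i => (g i : K)) := by
    intro K _ _ t t' ht ht' hs h1 h2
    have a0 : (a : K) ≠ 0 := by exact_mod_cast ha
    have b0 : (b : K) ≠ 0 := by exact_mod_cast hb
    have g0 : ∀ i, (g i : K) ≠ 0 := fun i => by exact_mod_cast hg i
    constructor
    · refine h1.of_isSquare (fun i => ?_) (fun i => ?_) (fun i => ?_) <;> fin_cases i <;>
        simp [a0, b0, ht, ht', hs]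
    · refine h2.of_isSquare (fun i => Fin.cases ht (fun j => g0 j) i)
        (fun i => Fin.cases ht' (fun j => g0 j) i) (fun i => Fin.cases hs (fun j => ?_) i)
      simp [g0 j]
  have sp : ∀ (K : Type) [Field K] [CharZero K],
      Iso (fun i => ((Matrix.vecCons a (Matrix.vecCons b g) i : ℚ) : K)) →
      ∃ t : K, t ≠ 0 ∧ Iso ![(a : K), b, -t] ∧ Iso (Matrix.vecCons t fun i => (g i : K)) := by
    intro K _ _ h
    rw [cast_cons, cast_cons] at h
    exact h.split (by exact_mod_cast ha) (by exact_mod_cast hb) fun i => by exact_mod_cast hg i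
  have h1 : ∀ p : ℕ, ∃ T : ℤ, T ≠ 0 ∧ ∀ [Fact p.Prime], Iso ![(a : ℚ_[p]), b, -T] ∧
      Iso (Matrix.vecCons (T : ℚ_[p]) fun i => (g i : ℚ_[p])) := by
    intro p
    by_cases hp : p.Prime
    · have := Fact.mk hp
      obtain ⟨t, ht, i1, i2⟩ := sp _ (h p this)
      obtain ⟨T, hT, hs⟩ := exists_int_near ht
      exact ⟨T, hT, fun {_} => tr _ t T ht (by exact_mod_cast hT) hs i1 i2⟩
    · exact ⟨1, one_ne_zero, fun {h} => absurd h.out hp⟩
  choose T hT0 hT using h1
  obtain ⟨t₀, ht₀, r1, r2⟩ := sp ℝ hR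
  obtain ⟨ε, hε, hεt⟩ : ∃ ε : ℤ, (ε = 1 ∨ ε = -1) ∧ 0 < (ε : ℝ) * t₀ := by
    rcases lt_or_gt_of_ne ht₀ with h | h
    · exact ⟨-1, Or.inr rfl, by simpa using h⟩
    · exact ⟨1, Or.inl rfl, by simpa using h⟩
  obtain ⟨q, t, hq2, hqS, hpos, hnd, hsq⟩ := approx_dirichlet S hS T (fun p _ => hT0 p) hε
  have t0 : t ≠ 0 := by
    rintro rfl
    simp at hpos
  have hreal := tr ℝ t₀ t ht₀ (by exact_mod_cast t0) (by
    have h3 : (0 : ℝ) < ε * t := by exact_mod_cast hpos
    have h4 : (t : ℝ) / t₀ = (ε * t) / (ε * t₀) := by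
      have : (ε : ℝ) ≠ 0 := left_ne_zero_of_mul hεt.ne'
      field_simp
    rw [h4]
    exact ⟨_, (Real.mul_self_sqrt (div_pos h3 hεt).le).symm⟩) r1 r2
  have hloc : ∀ p, p ≠ q → ∀ [Fact p.Prime], Iso ![(a : ℚ_[p]), b, -t] ∧
      Iso (Matrix.vecCons (t : ℚ_[p]) fun i => (g i : ℚ_[p])) := by
    intro p hp hP
    by_cases hpS : p ∈ S
    · exact tr ℚ_[p] (T p) t (by exact_mod_cast hT0 p) (by exact_mod_cast t0) (hsq p hpS)
        (hT p).1 (hT p).2
    · have p2 : p ≠ 2 := fun h => hpS (h ▸ h2S)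
      have nt := norm_eq_one_of_not_dvd (hnd p hP.out hpS hp)
      refine ⟨iso_unimodular p2 (hout p hpS 0) (hout p hpS 1) (by rwa [norm_neg]), ?_⟩
      refine Iso.of_comp (Fin.castLE (show 3 ≤ n + 2 + 1 by omega)) (Fin.castLE_injective _) ?_
      have e : (fun j => Matrix.vecCons (t : ℚ_[p]) (fun i => (g i : ℚ_[p]))
          (Fin.castLE (show 3 ≤ n + 2 + 1 by omega) j)) = ![(t : ℚ_[p]), g 0, g 1] := by
        funext j
        fin_cases j <;> rfl
      rw [e]
      exact iso_unimodular p2 nt (hout p hpS (Fin.succ (Fin.succ 0)))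
        (hout p hpS (Fin.succ (Fin.succ 1)))
  have tq : (t : ℚ) ≠ 0 := by exact_mod_cast t0
  refine ⟨t, q, tq, hq2, hm_three ha hb (neg_ne_zero.2 tq) q hq2 (fun p hp _ => ?_) ?_,
    fun p hp _ => ?_, ?_, fun i => hout q hqS (Fin.succ (Fin.succ i))⟩
  · rw [cast_three]
    push_cast
    exact (hloc p hp).1
  · unfold RealIso
    rw [cast_three]
    push_cast
    exact hreal.1
  · rw [cast_cons]
    push_cast
    exact (hloc p hp).2
  · unfold RealIso
    rw [cast_cons]
    push_cast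
    exact hreal.2

lemma eq_cons {n : ℕ} (c : Fin (n + 1) → ℚ) : c = Matrix.vecCons (c 0) (fun i => c i.succ) := by
  funext i
  refine Fin.cases rfl (fun j => rfl) i

lemma eq_three (c : Fin 3 → ℚ) : c = ![c 0, c 1, c 2] := by
  funext i
  fin_cases i <;> rfl

lemma locIso_of_units {n : ℕ} {p : ℕ} [Fact p.Prime] (h2 : p ≠ 2) {c : Fin (n + 3) → ℚ_[p]}
    (h : ∀ i, ‖c i‖ = 1) : Iso c := by
  refine Iso.of_comp (Fin.castLE (show 3 ≤ n + 3 by omega)) (Fin.castLE_injective _) ?_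
  have e : (fun j => c (Fin.castLE (show 3 ≤ n + 3 by omega) j)) =
      ![c (Fin.castLE (show 3 ≤ n + 3 by omega) 0), c (Fin.castLE (show 3 ≤ n + 3 by omega) 1),
        c (Fin.castLE (show 3 ≤ n + 3 by omega) 2)] := by
    funext j
    fin_cases j <;> rfl
  rw [e]
  exact iso_unimodular h2 (h _) (h _) (h _)

lemma hm_fin : ∀ (n : ℕ) (c : Fin (n + 3) → ℚ), (∀ i, c i ≠ 0) → (∀ p, LocIso p c) →
    RealIso c → Iso c := by
  intro n
  induction n with
  | zero =>
    intro c hc h hR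
    rw [eq_three c] at h hR ⊢
    exact hm_three (hc _) (hc _) (hc _) 0 (by norm_num) (fun p _ => h p) hR
  | succ n ih =>
    intro c hc h hR
    obtain ⟨a, c', rfl⟩ : ∃ a c', c = Matrix.vecCons a c' := ⟨_, _, eq_cons c⟩
    obtain ⟨b, g, rfl⟩ : ∃ b g, c' = Matrix.vecCons b g := ⟨_, _, eq_cons c'⟩
    have hg : ∀ i, g i ≠ 0 := fun i => hc i.succ.succ
    obtain ⟨t, q, ht, hq, i1, i2, i3, i4⟩ := hm_step (hc 0) (hc (Fin.succ 0)) hg h hR
    refine Iso.merge ht i1 ?_
    have hc' : ∀ i, Matrix.vecCons t g i ≠ 0 := fun i => Fin.cases ht (fun j => hg j) i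
    cases n with
    | zero =>
      rw [eq_three (Matrix.vecCons t g)] at i2 i3 ⊢
      exact hm_three (hc' _) (hc' _) (hc' _) q hq i2 i3
    | succ m =>
      refine ih _ hc' (fun p => ?_) i3
      by_cases hp : p = q
      · subst hp
        intro _
        exact Iso.of_comp Fin.succ (Fin.succ_injective _) (locIso_of_units hq i4)
      · exact i2 p hp

lemma isSquare_of_even {r : ℚ} (hr : 0 < r) (h : ∀ p : ℕ, p.Prime → Even (padicValRat p r)) :
    IsSquare r := by
  obtain ⟨A, s, hA, hs, e⟩ := exists_int_sq r hr.ne'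
  have A0 : 0 < A := by
    have : (0 : ℚ) < A := by rw [e]; positivity
    exact_mod_cast this
  obtain ⟨N, rfl⟩ := Int.eq_ofNat_of_zero_le A0.le
  obtain ⟨a, b, e2, hsq⟩ := Nat.sq_mul_squarefree N
  have N0 : N ≠ 0 := by exact_mod_cast hA
  have a0 : a ≠ 0 := hsq.ne_zero
  have b0 : b ≠ 0 := by
    rintro rfl
    simp at e2
    exact N0 e2.symm
  have bq : (b : ℚ) ≠ 0 := by exact_mod_cast b0
  have aq : (a : ℚ) ≠ 0 := by exact_mod_cast a0
  have e3 : r = (b / s) ^ 2 * a := by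
    rw [← e2] at e
    push_cast at e
    field_simp
    linear_combination -e
  have a1 : a = 1 := by
    by_contra h1
    obtain ⟨p, hp, hd⟩ := Nat.exists_prime_and_dvd h1
    have := Fact.mk hp
    have h2 := h p hp
    rw [e3, padicValRat.mul (pow_ne_zero 2 (div_ne_zero bq hs)) aq,
      padicValRat.pow, padicValRat.of_nat] at h2
    have h3 : padicValNat p a = 1 := by
      have u1 := one_le_padicValNat_of_dvd a0 hd
      have u2 := hsq.natFactorization_le_one p
      rw [Nat.factorization_def _ hp] at u2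
      omega
    rw [h3] at h2
    obtain ⟨k, hk⟩ := h2
    push_cast at hk
    omega
  rw [e3, a1]
  exact ⟨b / s, by push_cast; ring⟩

lemma sq_of_iso_two {K : Type*} [Field K] {a b : K} (ha : a ≠ 0) (hb : b ≠ 0) (h : Iso ![a, b]) :
    ∃ s : K, s ≠ 0 ∧ -(a * b) = s ^ 2 := by
  obtain ⟨x, y, hne, e⟩ := (iso_two_iff _ _).1 h
  have hy : y ≠ 0 := by
    rintro rfl
    have : a * x ^ 2 = 0 := by simpa using e
    have x0 : x = 0 := pow_eq_zero_iff (two_ne_zero) |>.1 ((mul_eq_zero.1 this).resolve_left ha)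
    rcases hne with h | h
    · exact h x0
    · exact h rfl
  have hx : x ≠ 0 := by
    rintro rfl
    have : b * y ^ 2 = 0 := by simpa using e
    exact mul_ne_zero hb (pow_ne_zero 2 hy) this
  refine ⟨a * x / y, div_ne_zero (mul_ne_zero ha hx) hy, ?_⟩
  field_simp
  linear_combination -e

lemma hm_two {a b : ℚ} (ha : a ≠ 0) (hb : b ≠ 0) (q : ℕ) (h : ∀ p, p ≠ q → LocIso p ![a, b])
    (hq : q.Prime → Even (padicValRat q a) ∧ Even (padicValRat q b)) (hR : RealIso ![a, b]) :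
    Iso ![a, b] := by
  have cast2 : ∀ (K : Type) [Field K], (fun i => ((![a, b] i : ℚ) : K)) = ![(a : K), b] := by
    intro K _
    funext i
    fin_cases i <;> rfl
  have hpos : 0 < -(a * b) := by
    unfold RealIso at hR
    rw [cast2] at hR
    obtain ⟨s, hs, e⟩ := sq_of_iso_two (by exact_mod_cast ha) (by exact_mod_cast hb) hR
    have : (0 : ℝ) < -(a * b) := by rw [e]; positivity
    exact_mod_cast this
  obtain ⟨s, hs⟩ := isSquare_of_even hpos fun p hp => by
    have := Fact.mk hp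
    by_cases hpq : p = q
    · subst hpq
      rw [padicValRat.neg, padicValRat.mul ha hb]
      exact (hq hp).1.add (hq hp).2
    · have h1 := h p hpq this
      rw [cast2] at h1
      obtain ⟨s, hs, e⟩ := sq_of_iso_two (by exact_mod_cast ha) (by exact_mod_cast hb) h1
      rw [← Padic.valuation_ratCast]
      push_cast
      rw [e, Padic.valuation_pow]
      exact ⟨s.valuation, by push_cast; ring⟩
  exact (iso_two_iff _ _).2 ⟨s, a, Or.inr ha, by linear_combination (-a) * hs⟩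

lemma locIso_of_even {n : ℕ} {q : ℕ} (h2 : q ≠ 2) {c : Fin (n + 3) → ℚ} (hc : ∀ i, c i ≠ 0)
    (h : q.Prime → ∀ i, Even (padicValRat q (c i))) : LocIso q c := by
  intro hq
  choose k hk using h hq.out
  have q0 : (q : ℚ_[q]) ≠ 0 := by exact_mod_cast hq.out.ne_zero
  have h1 : Iso (fun i => (c i : ℚ_[q]) / ((q : ℚ_[q]) ^ k i) ^ 2) := by
    refine locIso_of_units h2 fun i => ?_
    have c0 : (c i : ℚ_[q]) ≠ 0 := by exact_mod_cast hc i
    have qr : (q : ℝ) ≠ 0 := by exact_mod_cast hq.out.ne_zero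
    rw [norm_div, norm_pow, Padic.norm_p_zpow, Padic.norm_eq_zpow_neg_valuation c0,
      Padic.valuation_ratCast, hk i, sq, ← zpow_add₀ qr, neg_add, div_self (zpow_ne_zero _ qr)]
  refine h1.scale 1 (fun i => (q : ℚ_[q]) ^ k i) (fun i => zpow_ne_zero _ q0) fun i => ?_
  have := zpow_ne_zero (k i) q0
  field_simp

/-- Hasse-Minkowski, with one odd prime at which only the parity of the valuations is known -/
theorem hasse_minkowski_except (c : ι → ℚ) (hc : ∀ i, c i ≠ 0) (q : ℕ) (hq2 : q ≠ 2)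
    (h : ∀ p, p ≠ q → LocIso p c) (hq : q.Prime → ∀ i, Even (padicValRat q (c i)))
    (hR : RealIso c) : Iso c := by
  have key : ∀ (n : ℕ) (c : Fin n → ℚ), (∀ i, c i ≠ 0) → (∀ p, p ≠ q → LocIso p c) →
      (q.Prime → ∀ i, Even (padicValRat q (c i))) → RealIso c → Iso c := by
    intro n c hc h hq hR
    match n with
    | 0 =>
      obtain ⟨w, hw, -⟩ := hR
      exact absurd (Subsingleton.elim _ _) hw
    | 1 =>
      obtain ⟨w, hw, e⟩ := hR
      exfalso
      apply hw
      funext i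
      have i0 : i = 0 := Subsingleton.elim _ _
      have c0 : (c 0 : ℝ) ≠ 0 := by exact_mod_cast hc 0
      simpa [i0, c0] using e
    | 2 =>
      have e : c = ![c 0, c 1] := by
        funext i
        fin_cases i <;> rfl
      have hq' : q.Prime → Even (padicValRat q (c 0)) ∧ Even (padicValRat q (c 1)) :=
        fun h1 => ⟨hq h1 0, hq h1 1⟩
      have a0 := hc 0
      have a1 := hc 1
      rw [e] at h hR ⊢
      exact hm_two a0 a1 q h hq' hR
    | n + 3 =>
      refine hm_fin n c hc (fun p => ?_) hR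
      by_cases hp : p = q
      · rw [hp]
        exact locIso_of_even hq2 hc hq
      · exact h p hp
  have e := (Fintype.equivFin ι).symm
  exact Iso.of_comp e e.injective (key _ _ (fun i => hc _)
    (fun p hp hP => Iso.comp_equiv e (h p hp hP)) (fun h1 i => hq h1 _) (Iso.comp_equiv e hR))

/-- The Hasse-Minkowski theorem for nondegenerate diagonal forms over the rationals -/
theorem hasse_minkowski (c : ι → ℚ) (hc : ∀ i, c i ≠ 0) (h : ∀ p, LocIso p c) (hR : RealIso c) :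
    Iso c :=
  hasse_minkowski_except c hc 0 (by norm_num) (fun p _ => h p)
    (fun h => absurd h Nat.not_prime_zero) hR

end Pool.Agent.Lib.HasseMinkowski
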