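import Mathlib

/-!
Hilbert symbols of integers at odd primes, and the product formula in the form needed for the
Hasse-Minkowski theorem over the rationals.
-/

set_option autoImplicit false

namespace Pool.Agent.Lib.HasseMinkowski

/-- the quadratic character of the prime-to-`p` part -/
noncomputable def lam (p : ℕ) (a : ℤ) : ℤ := jacobiSym (a / (p : ℤ) ^ padicValInt p a) p

open Classical in
/-- Hilbert symbol at an odd prime (and `1` otherwise) -/
noncomputable def hs (p : ℕ) (a b : ℤ) : ℤ :=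
  if p.Prime ∧ p ≠ 2 then
    jacobiSym (-1) p ^ (padicValInt p a * padicValInt p b) * lam p a ^ padicValInt p b *
      lam p b ^ padicValInt p a
  else 1

/-- the conic `a x^2 + b y^2 = z^2` has a rational point -/
def Solv (a b : ℤ) : Prop :=
  ∃ x y z : ℤ, (x ≠ 0 ∨ y ≠ 0 ∨ z ≠ 0) ∧ a * x ^ 2 + b * y ^ 2 = z ^ 2

lemma exists_decomp {p : ℕ} (hp : p.Prime) {a : ℤ} (ha : a ≠ 0) :
    ∃ (k : ℕ) (u : ℤ), a = (p : ℤ) ^ k * u ∧ ¬ (p : ℤ) ∣ u := by
  have := Fact.mk hp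
  obtain ⟨u, hu⟩ := padicValInt_dvd (p := p) a
  refine ⟨padicValInt p a, u, hu, fun h => ?_⟩
  have h2 : (p : ℤ) ^ (padicValInt p a + 1) ∣ a := by
    obtain ⟨w, hw⟩ := h
    refine ⟨w, ?_⟩
    rw [pow_succ, mul_assoc, ← hw]
    exact hu
  rcases (padicValInt_dvd_iff _ _).1 h2 with h3 | h3
  · exact ha h3
  · omega

lemma val_decomp {p : ℕ} (hp : p.Prime) (k : ℕ) {u : ℤ} (hu : ¬ (p : ℤ) ∣ u) :
    padicValInt p ((p : ℤ) ^ k * u) = k := by
  have := Fact.mk hp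
  have hu0 : u ≠ 0 := fun h => hu (h ▸ dvd_zero _)
  have hp0 : (p : ℤ) ≠ 0 := by exact_mod_cast hp.ne_zero
  rw [padicValInt.mul (pow_ne_zero _ hp0) hu0, padicValInt.eq_zero_of_not_dvd hu]
  have : ((p : ℤ) ^ k) = ((p ^ k : ℕ) : ℤ) := by push_cast; rfl
  rw [this, padicValInt.of_nat, padicValNat.prime_pow, add_zero]

lemma lam_decomp {p : ℕ} (hp : p.Prime) (k : ℕ) {u : ℤ} (hu : ¬ (p : ℤ) ∣ u) :
    lam p ((p : ℤ) ^ k * u) = jacobiSym u p := by
  have hp0 : (p : ℤ) ≠ 0 := by exact_mod_cast hp.ne_zero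
  unfold lam
  rw [val_decomp hp k hu, Int.mul_ediv_cancel_left _ (pow_ne_zero _ hp0)]

lemma hs_decomp {p : ℕ} (hp : p.Prime) (h2 : p ≠ 2) (k l : ℕ) {u v : ℤ} (hu : ¬ (p : ℤ) ∣ u)
    (hv : ¬ (p : ℤ) ∣ v) :
    hs p ((p : ℤ) ^ k * u) ((p : ℤ) ^ l * v) =
      jacobiSym (-1) p ^ (k * l) * jacobiSym u p ^ l * jacobiSym v p ^ k := by
  unfold hs
  rw [if_pos ⟨hp, h2⟩, val_decomp hp k hu, val_decomp hp l hv, lam_decomp hp k hu,
    lam_decomp hp l hv]

lemma hs_of_not {p : ℕ} (h : ¬ (p.Prime ∧ p ≠ 2)) (a b : ℤ) : hs p a b = 1 := by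
  unfold hs
  rw [if_neg h]

lemma hs_symm (p : ℕ) (a b : ℤ) : hs p a b = hs p b a := by
  unfold hs
  split_ifs
  · rw [mul_comm (padicValInt p a)]
    ring
  · rfl

lemma not_dvd_mul {p : ℕ} (hp : p.Prime) {u v : ℤ} (hu : ¬ (p : ℤ) ∣ u) (hv : ¬ (p : ℤ) ∣ v) :
    ¬ (p : ℤ) ∣ u * v := fun h =>
  ((Nat.prime_iff_prime_int.1 hp).dvd_or_dvd h).elim hu hv

lemma hs_mul_right (p : ℕ) {a b c : ℤ} (ha : a ≠ 0) (hb : b ≠ 0) (hc : c ≠ 0) :
    hs p a (b * c) = hs p a b * hs p a c := by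
  by_cases h : p.Prime ∧ p ≠ 2
  · obtain ⟨hp, h2⟩ := h
    obtain ⟨k, u, rfl, hu⟩ := exists_decomp hp ha
    obtain ⟨l, v, rfl, hv⟩ := exists_decomp hp hb
    obtain ⟨m, w, rfl, hw⟩ := exists_decomp hp hc
    have e : (p : ℤ) ^ l * v * ((p : ℤ) ^ m * w) = (p : ℤ) ^ (l + m) * (v * w) := by ring
    rw [e, hs_decomp hp h2 _ _ hu (not_dvd_mul hp hv hw), hs_decomp hp h2 _ _ hu hv,
      hs_decomp hp h2 _ _ hu hw, jacobiSym.mul_left]
    ring
  · simp only [hs_of_not h, mul_one]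

lemma gcd_eq_one {p : ℕ} (hp : p.Prime) {u : ℤ} (hu : ¬ (p : ℤ) ∣ u) : u.gcd p = 1 := by
  rw [← Int.isCoprime_iff_gcd_eq_one, isCoprime_comm]
  exact (Nat.prime_iff_prime_int.1 hp).coprime_iff_not_dvd.2 hu

lemma not_dvd_one {p : ℕ} (hp : p.Prime) : ¬ (p : ℤ) ∣ 1 :=
  (Nat.prime_iff_prime_int.1 hp).not_dvd_one

lemma not_dvd_neg_one {p : ℕ} (hp : p.Prime) : ¬ (p : ℤ) ∣ -1 := fun h =>
  not_dvd_one hp (dvd_neg.1 h)

lemma hs_sq (p : ℕ) {a b : ℤ} (ha : a ≠ 0) (hb : b ≠ 0) : hs p a b * hs p a b = 1 := by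
  by_cases h : p.Prime ∧ p ≠ 2
  · obtain ⟨hp, h2⟩ := h
    obtain ⟨k, u, rfl, hu⟩ := exists_decomp hp ha
    obtain ⟨l, v, rfl, hv⟩ := exists_decomp hp hb
    rw [hs_decomp hp h2 _ _ hu hv]
    have e1 := jacobiSym.sq_one (gcd_eq_one hp hu)
    have e2 := jacobiSym.sq_one (gcd_eq_one hp hv)
    have e3 := jacobiSym.sq_one (gcd_eq_one hp (not_dvd_neg_one hp))
    calc _ = (jacobiSym (-1) p ^ 2) ^ (k * l) * (jacobiSym u p ^ 2) ^ l *
          (jacobiSym v p ^ 2) ^ k := by ring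
      _ = 1 := by rw [e1, e2, e3]; simp
  · simp only [hs_of_not h, mul_one]

lemma hs_mul_sq (p : ℕ) {a b c : ℤ} (ha : a ≠ 0) (hb : b ≠ 0) (hc : c ≠ 0) :
    hs p a (b * c ^ 2) = hs p a b := by
  rw [hs_mul_right p ha hb (pow_ne_zero _ hc), sq, hs_mul_right p ha hc hc, hs_sq p ha hc, mul_one]

lemma hs_units {p : ℕ} {u v : ℤ} (hu : ¬ (p : ℤ) ∣ u) (hv : ¬ (p : ℤ) ∣ v) : hs p u v = 1 := by
  by_cases h : p.Prime ∧ p ≠ 2
  · have := hs_decomp h.1 h.2 0 0 hu hv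
    simpa using this
  · exact hs_of_not h _ _

lemma hs_unit_right {p : ℕ} {a v : ℤ} (ha : a ≠ 0) (hv : ¬ (p : ℤ) ∣ v)
    (h1 : jacobiSym v p = 1) : hs p a v = 1 := by
  by_cases h : p.Prime ∧ p ≠ 2
  · obtain ⟨k, u, rfl, hu⟩ := exists_decomp h.1 ha
    have := hs_decomp h.1 h.2 k 0 hu hv
    rw [h1] at this
    simpa using this
  · exact hs_of_not h _ _

lemma core {p : ℕ} (hp : p.Prime) {u w : ℤ} (hu : ¬ (p : ℤ) ∣ u) (hw : ¬ (p : ℤ) ∣ w) :
    ∀ (n : ℕ) (x y z : ℤ), x.natAbs + y.natAbs + z.natAbs ≤ n → (x ≠ 0 ∨ y ≠ 0 ∨ z ≠ 0) →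
      u * x ^ 2 + p * w * y ^ 2 = z ^ 2 → jacobiSym u p = 1 := by
  have hP := Nat.prime_iff_prime_int.1 hp
  have hp0 : (p : ℤ) ≠ 0 := hP.ne_zero
  intro n
  induction n with
  | zero =>
    intro x y z h h0 _
    exfalso
    omega
  | succ n ih =>
    intro x y z h h0 e
    by_cases hx : (p : ℤ) ∣ x
    · obtain ⟨x', rfl⟩ := hx
      have hz : (p : ℤ) ∣ z := by
        refine hP.dvd_of_dvd_pow (n := 2) ⟨u * p * x' ^ 2 + w * y ^ 2, ?_⟩
        linear_combination -e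
      obtain ⟨z', rfl⟩ := hz
      have hy : (p : ℤ) ∣ y := by
        have h1 : (p : ℤ) ∣ w * y ^ 2 := by
          refine ⟨z' ^ 2 - u * x' ^ 2, ?_⟩
          apply mul_left_cancel₀ hp0
          linear_combination e
        exact hP.dvd_of_dvd_pow ((hP.dvd_or_dvd h1).resolve_left hw)
      obtain ⟨y', rfl⟩ := hy
      have h0' : x' ≠ 0 ∨ y' ≠ 0 ∨ z' ≠ 0 := by
        rcases h0 with h | h | h
        · exact Or.inl (right_ne_zero_of_mul h)
        · exact Or.inr (Or.inl (right_ne_zero_of_mul h))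
        · exact Or.inr (Or.inr (right_ne_zero_of_mul h))
      refine ih x' y' z' ?_ h0' ?_
      · simp only [Int.natAbs_mul, Int.natAbs_natCast] at h
        have h2 := hp.two_le
        have a1 : 2 * x'.natAbs ≤ p * x'.natAbs := Nat.mul_le_mul_right _ h2
        have a2 : 2 * y'.natAbs ≤ p * y'.natAbs := Nat.mul_le_mul_right _ h2
        have a3 : 2 * z'.natAbs ≤ p * z'.natAbs := Nat.mul_le_mul_right _ h2
        omega
      · apply mul_left_cancel₀ (pow_ne_zero 2 hp0)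
        linear_combination e
    · have h1 : jacobiSym (u * x ^ 2) p = jacobiSym (z ^ 2) p := by
        apply jacobiSym.mod_left'
        rw [← e, mul_assoc, Int.add_mul_emod_self_left]
      have hz : ¬ (p : ℤ) ∣ z := by
        intro hz
        have h2 : (p : ℤ) ∣ u * x ^ 2 := by
          obtain ⟨z', rfl⟩ := hz
          refine ⟨p * z' ^ 2 - w * y ^ 2, ?_⟩
          linear_combination e
        rcases hP.dvd_or_dvd h2 with h3 | h3
        · exact hu h3
        · exact hx (hP.dvd_of_dvd_pow h3)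
      rw [jacobiSym.mul_left, jacobiSym.sq_one' (gcd_eq_one hp hx),
        jacobiSym.sq_one' (gcd_eq_one hp hz), mul_one] at h1
      exact h1

lemma Solv.symm {a b : ℤ} (h : Solv a b) : Solv b a := by
  obtain ⟨x, y, z, h0, e⟩ := h
  exact ⟨y, x, z, by tauto, by rw [add_comm, e]⟩

lemma Solv.of_mul_sq {a b c : ℤ} (hc : c ≠ 0) (h : Solv a (b * c ^ 2)) : Solv a b := by
  obtain ⟨x, y, z, h0, e⟩ := h
  refine ⟨x, c * y, z, ?_, by linear_combination e⟩
  rcases h0 with h | h | h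
  · exact Or.inl h
  · exact Or.inr (Or.inl (mul_ne_zero hc h))
  · exact Or.inr (Or.inr h)

lemma Solv.mul_sq {a b c : ℤ} (hc : c ≠ 0) (h : Solv a b) : Solv a (b * c ^ 2) := by
  obtain ⟨x, y, z, h0, e⟩ := h
  refine ⟨c * x, y, c * z, ?_, by linear_combination c ^ 2 * e⟩
  rcases h0 with h | h | h
  · exact Or.inl (mul_ne_zero hc h)
  · exact Or.inr (Or.inl h)
  · exact Or.inr (Or.inr (mul_ne_zero hc h))

lemma exists_decomp2 {p : ℕ} (hp : p.Prime) {a : ℤ} (ha : a ≠ 0) :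
    ∃ u c : ℤ, c ≠ 0 ∧ ¬ (p : ℤ) ∣ u ∧ (a = u * c ^ 2 ∨ a = p * u * c ^ 2) := by
  obtain ⟨k, u, rfl, hu⟩ := exists_decomp hp ha
  have hp0 : (p : ℤ) ≠ 0 := by exact_mod_cast hp.ne_zero
  refine ⟨u, (p : ℤ) ^ (k / 2), pow_ne_zero _ hp0, hu, ?_⟩
  rcases Nat.even_or_odd' k with ⟨j, rfl | rfl⟩
  · left
    rw [show 2 * j / 2 = j by omega]
    ring
  · right
    rw [show (2 * j + 1) / 2 = j by omega]
    ring

lemma hs_one_of_solv_aux {p : ℕ} (hp : p.Prime) (h2 : p ≠ 2) {u v : ℤ} (hu : ¬ (p : ℤ) ∣ u)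
    (hv : ¬ (p : ℤ) ∣ v) :
    (Solv u (p * v) → hs p u (p * v) = 1) ∧ (Solv (p * u) (p * v) → hs p (p * u) (p * v) = 1) := by
  have hP := Nat.prime_iff_prime_int.1 hp
  have hp0 : (p : ℤ) ≠ 0 := hP.ne_zero
  have hu0 : u ≠ 0 := fun h => hu (h ▸ dvd_zero _)
  constructor
  · rintro ⟨x, y, z, h0, e⟩
    have h1 := core hp hu hv _ x y z le_rfl h0 e
    have h3 := hs_decomp hp h2 0 1 hu hv
    rw [h1] at h3
    simpa using h3
  · rintro ⟨x, y, z, h0, e⟩
    have hz : (p : ℤ) ∣ z := by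
      refine hP.dvd_of_dvd_pow (n := 2) ⟨u * x ^ 2 + v * y ^ 2, ?_⟩
      linear_combination -e
    obtain ⟨z', rfl⟩ := hz
    have e2 : u * x ^ 2 + v * y ^ 2 = p * z' ^ 2 := by
      apply mul_left_cancel₀ hp0
      linear_combination e
    have h1 := core hp (u := -1 * u * v) (w := u)
      (not_dvd_mul hp (not_dvd_mul hp (not_dvd_neg_one hp) hu) hv) hu _ y z' (u * x) le_rfl
      (by
        rcases h0 with h | h | h
        · exact Or.inr (Or.inr (mul_ne_zero hu0 h))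
        · exact Or.inl h
        · exact Or.inr (Or.inl (right_ne_zero_of_mul h)))
      (by linear_combination (-u) * e2)
    have h3 := hs_decomp hp h2 1 1 hu hv
    rw [jacobiSym.mul_left, jacobiSym.mul_left] at h1
    simp only [pow_one, mul_one] at h3
    rw [h3, h1]

lemma hs_one_of_solv (p : ℕ) {a b : ℤ} (ha : a ≠ 0) (hb : b ≠ 0) (h : Solv a b) :
    hs p a b = 1 := by
  by_cases hh : p.Prime ∧ p ≠ 2
  swap
  · exact hs_of_not hh _ _
  obtain ⟨hp, h2⟩ := hh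
  have hp0 : (p : ℤ) ≠ 0 := by exact_mod_cast hp.ne_zero
  obtain ⟨u, c, hc, hu, e1⟩ := exists_decomp2 hp ha
  obtain ⟨v, d, hd, hv, e2⟩ := exists_decomp2 hp hb
  have hu0 : u ≠ 0 := fun h => hu (h ▸ dvd_zero _)
  have hv0 : v ≠ 0 := fun h => hv (h ▸ dvd_zero _)
  have red : ∀ a' b' : ℤ, a' ≠ 0 → b' ≠ 0 → Solv (a' * c ^ 2) (b' * d ^ 2) →
      (Solv a' b' → hs p a' b' = 1) → hs p (a' * c ^ 2) (b' * d ^ 2) = 1 := by
    intro a' b' ha' hb' h1 h3
    rw [hs_mul_sq p (mul_ne_zero ha' (pow_ne_zero _ hc)) hb' hd, hs_symm, hs_mul_sq p hb' ha' hc,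
      hs_symm]
    exact h3 ((h1.of_mul_sq hd).symm.of_mul_sq hc).symm
  rcases e1 with rfl | rfl <;> rcases e2 with rfl | rfl
  · exact red _ _ hu0 hv0 h fun _ => hs_units hu hv
  · exact red _ _ hu0 (mul_ne_zero hp0 hv0) h (hs_one_of_solv_aux hp h2 hu hv).1
  · refine red _ _ (mul_ne_zero hp0 hu0) hv0 h fun h1 => ?_
    rw [hs_symm]
    exact (hs_one_of_solv_aux hp h2 hv hu).1 h1.symm
  · exact red _ _ (mul_ne_zero hp0 hu0) (mul_ne_zero hp0 hv0) h (hs_one_of_solv_aux hp h2 hu hv).2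

/-- Hilbert symbol at the real place -/
def hinf (a b : ℤ) : ℤ := if a < 0 ∧ b < 0 then -1 else 1

/-- product of the symbols at all places other than `2` -/
noncomputable def G (a b : ℤ) : ℤ := hinf a b * ∏ᶠ p : ℕ, hs p a b

lemma hs_support {a b : ℤ} (ha : a ≠ 0) (hb : b ≠ 0) :
    (Function.mulSupport fun p : ℕ => hs p a b).Finite := by
  refine (Set.finite_Iic (a * b).natAbs).subset fun p hp => ?_
  by_contra hlt
  apply hp
  have hlt' : (a * b).natAbs < p := not_le.1 hlt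
  have key : ¬ (p : ℤ) ∣ a * b := by
    intro h
    have := Nat.le_of_dvd (Int.natAbs_pos.2 (mul_ne_zero ha hb)) (Int.natCast_dvd.1 h)
    omega
  exact hs_units (fun h => key (h.mul_right _)) (fun h => key (h.mul_left _))

lemma hinf_symm (a b : ℤ) : hinf a b = hinf b a := by
  unfold hinf
  simp only [and_comm]

lemma hinf_mul_right {a b c : ℤ} (hb : b ≠ 0) (hc : c ≠ 0) :
    hinf a (b * c) = hinf a b * hinf a c := by
  unfold hinf
  by_cases ha : a < 0
  · rcases lt_or_gt_of_ne hb with h1 | h1 <;> rcases lt_or_gt_of_ne hc with h2 | h2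
    · have := mul_pos_of_neg_of_neg h1 h2
      simp [ha, h1, h2, this.le]
    · have := mul_neg_of_neg_of_pos h1 h2
      simp [ha, h1, h2.le, this]
    · have := mul_neg_of_pos_of_neg h1 h2
      simp [ha, h1.le, h2, this]
    · have := mul_pos h1 h2
      rw [if_neg (by omega), if_neg (by omega), if_neg (by omega), mul_one]
  · simp [ha]

lemma G_symm (a b : ℤ) : G a b = G b a := by
  unfold G
  rw [hinf_symm]
  simp only [hs_symm _ a b]

lemma G_mul_right {a b c : ℤ} (ha : a ≠ 0) (hb : b ≠ 0) (hc : c ≠ 0) :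
    G a (b * c) = G a b * G a c := by
  unfold G
  simp only [hs_mul_right _ ha hb hc]
  rw [finprod_mul_distrib (hs_support ha hb) (hs_support ha hc), hinf_mul_right hb hc]
  ring

lemma G_mul_left {a b c : ℤ} (ha : a ≠ 0) (hb : b ≠ 0) (hc : c ≠ 0) :
    G (a * b) c = G a c * G b c := by
  rw [G_symm, G_mul_right hc ha hb, G_symm c a, G_symm c b]

lemma hinf_of_solv {a b : ℤ} (h : Solv a b) : hinf a b = 1 := by
  obtain ⟨x, y, z, h0, e⟩ := h
  unfold hinf
  rw [if_neg]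
  rintro ⟨ha, hb⟩
  have h1 : a * x ^ 2 ≤ 0 := mul_nonpos_of_nonpos_of_nonneg ha.le (sq_nonneg x)
  have h2 : b * y ^ 2 ≤ 0 := mul_nonpos_of_nonpos_of_nonneg hb.le (sq_nonneg y)
  have h3 := sq_nonneg z
  rcases h0 with h | h | h
  · have := mul_neg_of_neg_of_pos ha (sq_pos_of_ne_zero h)
    linarith
  · have := mul_neg_of_neg_of_pos hb (sq_pos_of_ne_zero h)
    linarith
  · have := sq_pos_of_ne_zero h
    linarith

lemma G_of_solv {a b : ℤ} (ha : a ≠ 0) (hb : b ≠ 0) (h : Solv a b) : G a b = 1 := by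
  unfold G
  simp only [hs_one_of_solv _ ha hb h, hinf_of_solv h]
  simp

lemma G_sq {a b : ℤ} (ha : a ≠ 0) (hb : b ≠ 0) : G a b * G a b = 1 := by
  rw [← G_mul_right ha hb hb]
  exact G_of_solv ha (mul_ne_zero hb hb) ⟨0, 1, b, by simp, by ring⟩

lemma G_mul_sq {a b c : ℤ} (ha : a ≠ 0) (hb : b ≠ 0) (hc : c ≠ 0) : G a (b * c ^ 2) = G a b := by
  rw [G_mul_right ha hb (pow_ne_zero _ hc), sq, G_mul_right ha hc hc, G_sq ha hc, mul_one]

lemma int_ind (P : ℤ → Prop) (h1 : P 1) (hn : P (-1))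
    (hp : ∀ (l : ℕ) (a : ℤ), l.Prime → a ≠ 0 → P a → P (l * a)) : ∀ a : ℤ, a ≠ 0 → P a := by
  have key : ∀ n : ℕ, n ≠ 0 → P n ∧ P (-n) := by
    intro n
    induction n using induction_on_primes with
    | zero => intro h; exact absurd rfl h
    | one => intro _; exact ⟨by simpa using h1, by simpa using hn⟩
    | prime_mul l n hl ih =>
      intro h
      have hn0 : n ≠ 0 := right_ne_zero_of_mul h
      have hn1 : (n : ℤ) ≠ 0 := by exact_mod_cast hn0
      obtain ⟨i1, i2⟩ := ih hn0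
      refine ⟨by simpa using hp l n hl hn1 i1, ?_⟩
      have := hp l (-n) hl (neg_ne_zero.2 hn1) i2
      simpa using this
  intro a ha
  rcases Int.natAbs_eq a with h | h
  · rw [h]
    exact (key _ (Int.natAbs_ne_zero.2 ha)).1
  · rw [h]
    exact (key _ (Int.natAbs_ne_zero.2 ha)).2

/-- the symbol at two of two odd integers -/
def E (a b : ℤ) : ℤ := if a % 4 = 3 ∧ b % 4 = 3 then -1 else 1

lemma E_symm (a b : ℤ) : E a b = E b a := by
  unfold E
  simp only [and_comm]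

lemma E_mul_right {a b c : ℤ} (hb : b % 2 = 1) (hc : c % 2 = 1) : E a (b * c) = E a b * E a c := by
  unfold E
  have h1 : b % 4 = 1 ∨ b % 4 = 3 := by omega
  have h2 : c % 4 = 1 ∨ c % 4 = 3 := by omega
  have h3 := Int.mul_emod b c 4
  by_cases ha : a % 4 = 3
  · rcases h1 with h1 | h1 <;> rcases h2 with h2 | h2 <;> rw [h1, h2] at h3 <;>
      simp [ha, h1, h2, h3]
  · simp [ha]

lemma G_one (a : ℤ) (ha : a ≠ 0) : G a 1 = 1 :=
  G_of_solv ha one_ne_zero ⟨0, 1, 1, by simp, by ring⟩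

lemma not_dvd_prime {p l : ℕ} (hp : p.Prime) (hl : l.Prime) (h : p ≠ l) : ¬ (p : ℤ) ∣ l := by
  intro h1
  exact h ((Nat.prime_dvd_prime_iff_eq hp hl).1 (Int.natCast_dvd_natCast.1 h1))

lemma hs_unit_prime {l : ℕ} (hl : l.Prime) (h2 : l ≠ 2) {u : ℤ} (hu : ¬ (l : ℤ) ∣ u) :
    hs l u l = jacobiSym u l := by
  have := hs_decomp hl h2 0 1 hu (not_dvd_one hl)
  simpa using this

lemma G_unit_prime {l : ℕ} (hl : l.Prime) (h2 : l ≠ 2) {u : ℤ}
    (hu : ∀ p : ℕ, p.Prime → p ≠ 2 → ¬ (p : ℤ) ∣ u) : G u l = jacobiSym u l := by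
  unfold G
  have h1 : hinf u l = 1 := by
    unfold hinf
    rw [if_neg]
    rintro ⟨-, h⟩
    omega
  rw [h1, one_mul, finprod_eq_single _ l, hs_unit_prime hl h2 (hu l hl h2)]
  intro p hp
  by_cases h : p.Prime ∧ p ≠ 2
  · exact hs_units (hu p h.1 h.2) (not_dvd_prime h.1 hl hp)
  · exact hs_of_not h _ _

lemma chi4_eq {l : ℕ} (h : l % 2 = 1) : jacobiSym (-1) l = E (-1) l := by
  rw [jacobiSym.at_neg_one (Nat.odd_iff.2 h)]
  unfold E
  have h1 : l % 4 = 1 ∨ l % 4 = 3 := by omega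
  rcases h1 with h1 | h1
  · rw [ZMod.χ₄_nat_one_mod_four h1, if_neg]
    omega
  · rw [ZMod.χ₄_nat_three_mod_four h1, if_pos]
    omega

lemma G_neg_one_prime {l : ℕ} (hl : l.Prime) (h2 : l ≠ 2) : G (-1) l = E (-1) l := by
  rw [G_unit_prime hl h2 fun p hp _ => not_dvd_neg_one hp,
    chi4_eq (hl.eq_two_or_odd.resolve_left h2)]

lemma G_neg_one_neg_one : G (-1) (-1) = E (-1) (-1) := by
  unfold G
  have h : ∀ p : ℕ, hs p (-1) (-1) = 1 := by
    intro p
    by_cases h : p.Prime ∧ p ≠ 2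
    · exact hs_units (not_dvd_neg_one h.1) (not_dvd_neg_one h.1)
    · exact hs_of_not h _ _
  simp only [h]
  simp [hinf, E]

lemma G_prime_prime {l m : ℕ} (hl : l.Prime) (hl2 : l ≠ 2) (hm : m.Prime) (hm2 : m ≠ 2) :
    G l m = E l m := by
  have ol := hl.eq_two_or_odd.resolve_left hl2
  have om := hm.eq_two_or_odd.resolve_left hm2
  have l0 : (l : ℤ) ≠ 0 := by exact_mod_cast hl.ne_zero
  by_cases h : l = m
  · subst h
    have h1 : G l (-l) = 1 := G_of_solv l0 (neg_ne_zero.2 l0) ⟨1, 1, 0, by simp, by ring⟩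
    have h2 : G l (-l) = G l (-1) * G l l := by
      rw [← G_mul_right l0 (by norm_num) l0, neg_one_mul]
    have h3 := G_sq l0 (show (-1 : ℤ) ≠ 0 by norm_num)
    have h4 : G l l = G l (-1) := by
      calc G l l = (G l (-1) * G l (-1)) * G l l := by rw [h3, one_mul]
        _ = G l (-1) * G l (-l) := by rw [h2]; ring
        _ = G l (-1) := by rw [h1, mul_one]
    rw [h4, G_symm, G_neg_one_prime hl hl2]
    unfold E
    simp
  · unfold G
    have h1 : hinf l m = 1 := by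
      unfold hinf
      rw [if_neg]
      rintro ⟨-, h⟩
      omega
    rw [h1, one_mul, finprod_eq_prod_of_mulSupport_subset (s := {l, m}), Finset.prod_pair h,
      hs_symm l, hs_unit_prime hl hl2 (not_dvd_prime hl hm h),
      hs_unit_prime hm hm2 (not_dvd_prime hm hl (Ne.symm h))]
    · have hsq := jacobiSym.sq_one (gcd_eq_one hl (not_dvd_prime hl hm h))
      unfold E
      by_cases h3 : l % 4 = 3 ∧ m % 4 = 3
      · rw [jacobiSym.quadratic_reciprocity_three_mod_four h3.1 h3.2, if_pos (by omega)]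
        linear_combination -hsq
      · rw [if_neg (by omega)]
        have h4 : l % 4 = 1 ∨ m % 4 = 1 := by omega
        rcases h4 with h4 | h4
        · rw [jacobiSym.quadratic_reciprocity_one_mod_four h4 (Nat.odd_iff.2 om)]
          linear_combination hsq
        · rw [jacobiSym.quadratic_reciprocity_one_mod_four' (Nat.odd_iff.2 ol) h4]
          linear_combination hsq
    · intro p hp
      by_contra hn
      apply hp
      simp only [Finset.coe_insert, Finset.coe_singleton, Set.mem_insert_iff,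
        Set.mem_singleton_iff, not_or] at hn
      by_cases h5 : p.Prime ∧ p ≠ 2
      · exact hs_units (not_dvd_prime h5.1 hl hn.1) (not_dvd_prime h5.1 hm hn.2)
      · exact hs_of_not h5 _ _

lemma odd_of_mul {l : ℕ} {a : ℤ} (h : ((l : ℤ) * a) % 2 = 1) :
    l ≠ 2 ∧ (l : ℤ) % 2 = 1 ∧ a % 2 = 1 := by
  have h1 := Int.mul_emod l a 2
  have h2 : (l : ℤ) % 2 = 0 ∨ (l : ℤ) % 2 = 1 := by omega
  have h3 : a % 2 = 0 ∨ a % 2 = 1 := by omega
  rcases h2 with h2 | h2 <;> rcases h3 with h3 | h3 <;> rw [h2, h3] at h1 <;> omega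

lemma G_odd_aux {a : ℤ} (ha : a ≠ 0) (h1 : G a (-1) = E a (-1))
    (h2 : ∀ l : ℕ, l.Prime → l ≠ 2 → G a l = E a l) :
    ∀ b : ℤ, b ≠ 0 → b % 2 = 1 → G a b = E a b := by
  refine int_ind _ (fun _ => ?_) (fun _ => h1) (fun l b hl hb ih h => ?_)
  · rw [G_one a ha]
    simp [E]
  · obtain ⟨o1, o2, o3⟩ := odd_of_mul h
    rw [G_mul_right ha (by exact_mod_cast hl.ne_zero) hb, E_mul_right o2 o3, ih o3, h2 l hl o1]

lemma G_odd {a b : ℤ} (ha : a % 2 = 1) (hb : b % 2 = 1) : G a b = E a b := by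
  have a0 : a ≠ 0 := by omega
  have b0 : b ≠ 0 := by omega
  refine G_odd_aux a0 ?_ (fun l hl h2 => ?_) b b0 hb
  · rw [G_symm, E_symm]
    exact G_odd_aux (by norm_num) G_neg_one_neg_one (fun l hl h2 => G_neg_one_prime hl h2) a a0 ha
  · rw [G_symm, E_symm]
    refine G_odd_aux (by exact_mod_cast hl.ne_zero) ?_ (fun m hm hm2 => G_prime_prime hl h2 hm hm2)
      a a0 ha
    rw [G_symm, E_symm]
    exact G_neg_one_prime hl h2

lemma G_two : ∀ b : ℤ, b ≠ 0 → b % 2 = 1 → G 2 b = ZMod.χ₈ (b : ZMod 8) := by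
  refine int_ind _ (fun _ => ?_) (fun _ => ?_) (fun l b hl hb ih h => ?_)
  · rw [G_one 2 (by norm_num)]
    simp
  · rw [G_of_solv (by norm_num) (by norm_num) ⟨1, 1, 1, by simp, by ring⟩]
    decide
  · obtain ⟨o1, o2, o3⟩ := odd_of_mul h
    have h3 : ∀ p : ℕ, p.Prime → p ≠ 2 → ¬ (p : ℤ) ∣ 2 := fun p hp h2 =>
      not_dvd_prime hp Nat.prime_two h2
    rw [G_mul_right (by norm_num) (by exact_mod_cast hl.ne_zero) hb, ih o3,
      G_unit_prime hl o1 h3, jacobiSym.at_two (Nat.odd_iff.2 (by omega))]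
    push_cast
    rw [map_mul]

/-- the product formula -/
theorem G_one_mod_eight {b : ℤ} (hb : b % 8 = 1) : ∀ a : ℤ, a ≠ 0 → G a b = 1 := by
  have b0 : b ≠ 0 := by omega
  have hE : ∀ a, E a b = 1 := by
    intro a
    unfold E
    rw [if_neg]
    omega
  refine int_ind _ ?_ ?_ (fun l a hl ha ih => ?_)
  · rw [G_odd (by norm_num) (by omega), hE]
  · rw [G_odd (by norm_num) (by omega), hE]
  · rw [G_mul_left (by exact_mod_cast hl.ne_zero) ha b0, ih, mul_one]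
    rcases hl.eq_two_or_odd with h | h
    · subst h
      have := G_two b b0 (by omega)
      rw [ZMod.χ₈_int_eq_if_mod_eight, if_neg (by omega), if_pos (by omega)] at this
      exact_mod_cast this
    · rw [G_odd (by omega) (by omega), hE]

/-- if all symbols but one are trivial then so is the last one -/
lemma hs_last {a b : ℤ} (q : ℕ) (h1 : ∀ p, p ≠ q → hs p a b = 1) (h2 : hinf a b = 1)
    (h3 : G a b = 1) : hs q a b = 1 := by
  unfold G at h3
  rwa [h2, one_mul, finprod_eq_single _ q h1] at h3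

end Pool.Agent.Lib.HasseMinkowski
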